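import Pool.Agent.N269.AK.Sym

set_option autoImplicit false

/-!
# Loops of an automaton with many distinct residues
-/

open Finset

namespace Pool.Agent.N269.AK

/-- `u` is reachable from `s`. -/
def Rch {Q ι : Type*} (δ : Q → ι → Q) (s u : Q) : Prop := ∃ (n : ℕ) (Y : ℕ → ι), st δ s Y n = u

/-- The first `m` letters of `w`, then `r`. -/
def cat {ι : Type*} (m : ℕ) (w r : ℕ → ι) (n : ℕ) : ι := if n < m then w n else r (n - m)

theorem cat_lt {ι : Type*} {m : ℕ} (w r : ℕ → ι) {n : ℕ} (h : n < m) : cat m w r n = w n := by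
  unfold cat; rw [if_pos h]

theorem cat_add {ι : Type*} {m : ℕ} (w r : ℕ → ι) (n : ℕ) : cat m w r (m + n) = r n := by
  unfold cat
  rw [if_neg (by omega)]
  congr 1
  omega

theorem st_cat {Q ι : Type*} (δ : Q → ι → Q) (s : Q) (m n : ℕ) (w r : ℕ → ι) :
    st δ s (cat m w r) (m + n) = st δ (st δ s w m) r n := by
  rw [st_add, st_congr δ s (n := m) (Y := cat m w r) (Y' := w) (fun j hj => cat_lt w r hj)]
  congr 1
  funext j
  exact cat_add w r j

theorem Rch.refl {Q ι : Type*} [Nonempty ι] (δ : Q → ι → Q) (s : Q) : Rch δ s s :=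
  ⟨0, fun _ => Classical.arbitrary ι, rfl⟩

theorem Rch.trans {Q ι : Type*} {δ : Q → ι → Q} {s u v : Q} (h₁ : Rch δ s u) (h₂ : Rch δ u v) :
    Rch δ s v := by
  obtain ⟨m, w, hw⟩ := h₁
  obtain ⟨n, r, hr⟩ := h₂
  refine ⟨m + n, cat m w r, ?_⟩
  rw [st_cat, hw, hr]

theorem exists_recurrent {Q ι : Type*} [Finite Q] [Nonempty ι] (δ : Q → ι → Q) (s₀ : Q) :
    ∃ s, Rch δ s₀ s ∧ ∀ u, Rch δ s u → Rch δ u s := by
  classical
  have : Fintype Q := Fintype.ofFinite Q
  let F : Q → Finset Q := fun s => univ.filter fun u => Rch δ s u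
  have hF : ∀ s u, u ∈ F s ↔ Rch δ s u := fun s u => by simp [F]
  obtain ⟨s, hs, hmin⟩ := exists_min_image (F s₀) (fun s => (F s).card)
    ⟨s₀, (hF _ _).2 (Rch.refl δ s₀)⟩
  refine ⟨s, (hF _ _).1 hs, fun u hu => ?_⟩
  have h1 : F u ⊆ F s := fun v hv => (hF _ _).2 (hu.trans ((hF _ _).1 hv))
  have h2 : (F s).card ≤ (F u).card := hmin u ((hF _ _).2 (((hF _ _).1 hs).trans hu))
  have h3 : F u = F s := eq_of_subset_of_card_le h1 h2
  rw [← hF, h3, hF]
  exact Rch.refl δ s

theorem hor_cat {Q ι : Type*} {d : ℕ} (M : ℤ) (δ : Q → ι → Q) (α : Q → ι → Fin d → ℤ) (s : Q)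
    (m n : ℕ) (w r : ℕ → ι) (a : Fin d) :
    hor M (outs δ α s (cat m w r)) (m + n) a =
      M ^ n * hor M (outs δ α s w) m a + hor M (outs δ α (st δ s w m) r) n a := by
  rw [hor_add, hor_congr M (outs_congr δ α s (Y := cat m w r) (Y' := w)
    (fun j hj => cat_lt w r hj)), outs_add,
    st_congr δ s (n := m) (Y := cat m w r) (Y' := w) (fun j hj => cat_lt w r hj)]
  congr 3
  funext j
  exact cat_add w r j

theorem hor_dig_cat {ι : Type*} {d : ℕ} (M : ℤ) (dig : ι → Fin d → ℤ)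
    (m n : ℕ) (w r : ℕ → ι) (a : Fin d) :
    hor M (fun j => dig (cat m w r j)) (m + n) a =
      M ^ n * hor M (fun j => dig (w j)) m a + hor M (fun j => dig (r j)) n a := by
  rw [hor_add, hor_congr M (f := fun j => dig (cat m w r j)) (f' := fun j => dig (w j))
    (fun j hj => congrArg dig (cat_lt w r hj))]
  congr 2
  funext j
  rw [cat_add]

theorem loops {ι Q : Type} [Fintype ι] [Nonempty ι] [Fintype Q] {d M : ℕ} {dig : ι → Fin d → ℤ}
    (hM : 2 ≤ M) (hdig : ∀ i i', (∀ a, (M:ℤ) ∣ dig i a - dig i' a) → i = i')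
    (δ : Q → ι → Q) (α : Q → ι → Fin d → ℤ) (s : Q) (hs : ∀ u, Rch δ s u → Rch δ u s) :
    ∃ ℓ₀ : ℕ, ∀ (m C : ℕ), ∀ _ : NeZero (M ^ m), Kk (ZMod (M ^ m)) d C → ∃ ℓ, m ≤ ℓ ∧ ℓ ≤ m + ℓ₀ ∧
      ∃ (κ : Type) (_ : Fintype κ) (g : κ → ℕ → ι) (t : ℤ), (∀ v, st δ s (g v) ℓ = s) ∧
      (∀ v v', (∀ a, (M:ℤ) ^ ℓ ∣
        (hor M (outs δ α s (g v)) ℓ a + t * hor M (fun j => dig (g v j)) ℓ a) -
        (hor M (outs δ α s (g v')) ℓ a + t * hor M (fun j => dig (g v' j)) ℓ a)) → v = v') ∧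
      Fintype.card ι ^ m ≤ C * (Fintype.card Q * Fintype.card κ) := by
  classical
  -- return words
  have hret : ∀ u : Q, ∃ (n : ℕ) (r : ℕ → ι), Rch δ s u → st δ u r n = s := by
    intro u
    by_cases h : Rch δ s u
    · obtain ⟨n, r, hr⟩ := hs u h
      exact ⟨n, r, fun _ => hr⟩
    · exact ⟨0, fun _ => Classical.arbitrary ι, fun h' => absurd h' h⟩
  choose len ret hret using hret
  refine ⟨univ.sup len, fun m C _ hC => ?_⟩
  obtain ⟨κ, _, g, t, hdist, hcard⟩ := residues hM hdig δ α s m C hC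
  -- the most popular end state
  obtain ⟨u, hu⟩ : ∃ u : Q, Fintype.card κ ≤
      Fintype.card Q * Fintype.card {v : κ // st δ s (g v) m = u} := by
    by_contra hcon
    push Not at hcon
    have h1 : Fintype.card κ = ∑ u : Q, Fintype.card {v : κ // st δ s (g v) m = u} := by
      rw [← Fintype.card_sigma]
      exact Fintype.card_congr (Equiv.sigmaFiberEquiv fun v => st δ s (g v) m).symm
    have : Nonempty Q := ⟨s⟩
    have h2 : ∑ u : Q, Fintype.card Q * Fintype.card {v : κ // st δ s (g v) m = u} <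
        ∑ _u : Q, Fintype.card κ := sum_lt_sum_of_nonempty univ_nonempty fun u _ => hcon u
    rw [← mul_sum, ← h1, sum_const, card_univ, smul_eq_mul] at h2
    omega
  refine ⟨m + len u, by omega, by
    have : len u ≤ univ.sup len := le_sup (mem_univ u)
    omega, {v : κ // st δ s (g v) m = u}, inferInstance, fun v => cat m (g v.1) (ret u), t,
    ?_, ?_, ?_⟩
  · intro v
    rw [st_cat, v.2]
    exact hret u ⟨m, g v.1, v.2⟩
  · intro v v' h
    apply Subtype.ext
    apply hdist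
    intro a
    have h1 := h a
    rw [hor_cat, hor_cat, hor_dig_cat, hor_dig_cat, v.2, v'.2] at h1
    have h2 : ((M:ℤ) ^ len u * hor M (outs δ α s (g v.1)) m a +
        hor M (outs δ α u (ret u)) (len u) a +
        t * ((M:ℤ) ^ len u * hor M (fun j => dig (g v.1 j)) m a +
          hor M (fun j => dig (ret u j)) (len u) a) -
        ((M:ℤ) ^ len u * hor M (outs δ α s (g v'.1)) m a +
        hor M (outs δ α u (ret u)) (len u) a +
        t * ((M:ℤ) ^ len u * hor M (fun j => dig (g v'.1 j)) m a +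
          hor M (fun j => dig (ret u j)) (len u) a))) =
        (M:ℤ) ^ len u * ((hor M (outs δ α s (g v.1)) m a +
          t * hor M (fun j => dig (g v.1 j)) m a) -
          (hor M (outs δ α s (g v'.1)) m a + t * hor M (fun j => dig (g v'.1 j)) m a)) := by
      ring
    rw [h2, add_comm m, pow_add] at h1
    exact (mul_dvd_mul_iff_left (by positivity)).1 h1
  · exact hcard.trans (Nat.mul_le_mul_left _ hu)

end Pool.Agent.N269.AK
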