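import Pool.Agent.N269.AK.SS
import Pool.Agent.N269.AK.Loop

set_option autoImplicit false

/-!
# Automatic families of lines: the dimension of the union
-/

open Set Filter Topology
open scoped ENNReal

namespace Pool.Agent.N269.AK

theorem tendsto_log_div (ℓ : ℕ) :
    Tendsto (fun m : ℕ => Real.log m / ((m:ℝ) + ℓ)) atTop (𝓝 0) := by
  have h1 : Tendsto (fun x : ℝ => Real.log x / x) atTop (𝓝 0) :=
    Real.isLittleO_log_id_atTop.tendsto_div_nhds_zero
  have h2 : Tendsto (fun m : ℕ => Real.log m / (m:ℝ)) atTop (𝓝 0) :=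
    h1.comp tendsto_natCast_atTop_atTop
  refine squeeze_zero' ?_ ?_ h2
  · filter_upwards [eventually_ge_atTop 1] with m hm
    have : (1:ℝ) ≤ m := by exact_mod_cast hm
    exact div_nonneg (Real.log_nonneg this) (by positivity)
  · filter_upwards [eventually_ge_atTop 1] with m hm
    have h3 : (1:ℝ) ≤ m := by exact_mod_cast hm
    exact div_le_div_of_nonneg_left (Real.log_nonneg h3) (by linarith)
      (by have : (0:ℝ) ≤ ℓ := Nat.cast_nonneg ℓ
          linarith)

/-- Automatic families, starting from a recurrent state. -/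
theorem aut_recurrent {Q ι : Type} [Fintype Q] [Fintype ι] [Nonempty ι] {d M : ℕ} (hM : 2 ≤ M)
    {dig : ι → Fin d → ℤ} (hdig : ∀ i i', (∀ a, (M:ℤ) ∣ dig i a - dig i' a) → i = i')
    (δ : Q → ι → Q) (α : Q → ι → Fin d → ℤ) (s : Q) (hs : ∀ u, Rch δ s u → Rch δ u s)
    {x y : ℝ} (hxy : x < y) :
    ENNReal.ofReal (1 + Real.log (Fintype.card ι) / Real.log M) ≤
      dimH (aut M δ α dig s (Ioo x y)) := by
  have hM1 : (1:ℝ) < M := by exact_mod_cast (by omega : 1 < M)
  have hlogM : 0 < Real.log M := Real.log_pos hM1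
  have hι : (1:ℝ) ≤ Fintype.card ι := by exact_mod_cast Fintype.card_pos
  have : Nonempty Q := ⟨s⟩
  have hQ : (1:ℝ) ≤ Fintype.card Q := by exact_mod_cast Fintype.card_pos
  obtain ⟨K, D, hK⟩ := kk_pow d M (by omega)
  obtain ⟨ℓ₀, hℓ₀⟩ := loops hM hdig δ α s hs
  set c : ℝ := Real.log (max 1 (K:ℝ) * Fintype.card Q) with hc
  have hKpos : (1:ℝ) ≤ max 1 (K:ℝ) := le_max_left _ _
  have hc0 : 0 ≤ c := Real.log_nonneg (by nlinarith)
  have key : ∀ m : ℕ, 1 ≤ m → ENNReal.ofReal (1 + (Real.log (Fintype.card ι) *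
      ((m:ℝ) / (m + ℓ₀)) - c / (m + ℓ₀) - D * (Real.log m / (m + ℓ₀))) / Real.log M) ≤
      dimH (aut M δ α dig s (Ioo x y)) := by
    intro m hm
    have hne : NeZero (M ^ m) := ⟨pow_ne_zero _ (by omega)⟩
    obtain ⟨ℓ, h1, h2, κ, _, g, t, hloop, hdist, hcard⟩ :=
      hℓ₀ m (K * m ^ D) hne (hK m hm hne)
    have hℓ1 : 1 ≤ ℓ := by omega
    have hκpos : 0 < Fintype.card κ := by
      by_contra hcon
      have h0 : Fintype.card κ = 0 := by omega
      rw [h0, mul_zero, mul_zero] at hcard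
      have : 0 < Fintype.card ι ^ m := pow_pos Fintype.card_pos m
      omega
    have : Nonempty κ := Fintype.card_pos_iff.1 hκpos
    have hMℓ : 2 ≤ M ^ ℓ := by
      calc 2 ≤ M := hM
        _ = M ^ 1 := (pow_one M).symm
        _ ≤ M ^ ℓ := Nat.pow_le_pow_right (by omega) hℓ1
    have h3 := self_similar hMℓ (fun v a => hor M (outs δ α s (g v)) ℓ a)
      (fun v a => hor M (fun j => dig (g v j)) ℓ a) t (fun v v' h => hdist v v' (fun a => by
        have := h a
        push_cast at this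
        exact this)) hxy
    have h4 := fam_subset_aut (δ := δ) (α := α) (dig := dig) hM hℓ1 hloop (Ioo x y)
    rw [show ((M ^ ℓ : ℕ) : ℝ) = (M:ℝ) ^ ℓ by push_cast; rfl] at h3
    refine le_trans (ENNReal.ofReal_le_ofReal ?_) (h3.trans (dimH_mono h4))
    rw [Real.log_pow]
    have hm1 : (1:ℝ) ≤ m := by exact_mod_cast hm
    have hmℓ : (0:ℝ) < (m:ℝ) + ℓ₀ := by have : (0:ℝ) ≤ ℓ₀ := Nat.cast_nonneg _; linarith
    have hℓr : (0:ℝ) < ℓ := by exact_mod_cast (by omega : 0 < ℓ)
    have hℓle : (ℓ:ℝ) ≤ m + ℓ₀ := by exact_mod_cast h2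
    have hκ1 : (1:ℝ) ≤ Fintype.card κ := by exact_mod_cast hκpos
    have hlogκ : 0 ≤ Real.log (Fintype.card κ) := Real.log_nonneg hκ1
    have h5 : m * Real.log (Fintype.card ι) - c - D * Real.log m ≤ Real.log (Fintype.card κ) := by
      have h6 : ((Fintype.card ι : ℝ)) ^ m ≤
          (max 1 (K:ℝ) * Fintype.card Q) * (m:ℝ) ^ D * Fintype.card κ := by
        have h7 : ((Fintype.card ι ^ m : ℕ) : ℝ) ≤
            ((K * m ^ D * (Fintype.card Q * Fintype.card κ) : ℕ) : ℝ) := by exact_mod_cast hcard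
        push_cast at h7
        refine h7.trans ?_
        calc (K:ℝ) * (m:ℝ) ^ D * ((Fintype.card Q : ℝ) * Fintype.card κ)
            ≤ max 1 (K:ℝ) * (m:ℝ) ^ D * ((Fintype.card Q : ℝ) * Fintype.card κ) := by
              gcongr
              exact le_max_right _ _
          _ = _ := by ring
      have h8 := Real.log_le_log (by positivity) h6
      rw [Real.log_mul (by positivity) (by positivity), Real.log_mul (by positivity)
        (by positivity), Real.log_pow, Real.log_pow, ← hc] at h8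
      linarith
    have h6 : (Real.log (Fintype.card ι) * ((m:ℝ) / (m + ℓ₀)) - c / (m + ℓ₀) -
        D * (Real.log m / (m + ℓ₀))) =
        (m * Real.log (Fintype.card ι) - c - D * Real.log m) / (m + ℓ₀) := by ring
    rw [h6]
    have h7 : (m * Real.log (Fintype.card ι) - c - D * Real.log m) / (m + ℓ₀) ≤
        Real.log (Fintype.card κ) / ℓ := by
      refine (div_le_div_of_nonneg_right h5 hmℓ.le).trans ?_
      exact div_le_div_of_nonneg_left hlogκ hℓr hℓle
    have h8 := div_le_div_of_nonneg_right h7 hlogM.le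
    rw [div_div (Real.log (Fintype.card κ))] at h8
    linarith
  have hlim : Tendsto (fun m : ℕ => ENNReal.ofReal (1 + (Real.log (Fintype.card ι) *
      ((m:ℝ) / (m + ℓ₀)) - c / (m + ℓ₀) - D * (Real.log m / (m + ℓ₀))) / Real.log M)) atTop
      (𝓝 (ENNReal.ofReal (1 + (Real.log (Fintype.card ι) * 1 - 0 - D * 0) / Real.log M))) := by
    apply ENNReal.tendsto_ofReal
    apply Tendsto.const_add
    apply Tendsto.div_const
    apply Tendsto.sub
    · apply Tendsto.sub
      · apply Tendsto.const_mul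
        exact tendsto_natCast_div_add_atTop (ℓ₀:ℝ)
      · refine Tendsto.div_atTop tendsto_const_nhds ?_
        exact tendsto_atTop_add_const_right _ _ tendsto_natCast_atTop_atTop
    · apply Tendsto.const_mul
      exact tendsto_log_div ℓ₀
  rw [mul_one, sub_zero, mul_zero, sub_zero] at hlim
  exact le_of_tendsto hlim (eventually_atTop.2 ⟨1, fun m hm => key m hm⟩)

/-- The position of the line given by an input sequence. -/
noncomputable def pos {Q ι : Type} {d : ℕ} (M : ℝ) (δ : Q → ι → Q) (α : Q → ι → Fin d → ℤ) (s : Q)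
    (Y : ℕ → ι) (a : Fin d) : ℝ := ser M (fun j => (outs δ α s Y j a : ℝ))

/-- The slope of the line given by an input sequence. -/
noncomputable def slo {ι : Type} {d : ℕ} (M : ℝ) (dig : ι → Fin d → ℤ) (Y : ℕ → ι) (a : Fin d) : ℝ :=
  ser M (fun j => (dig (Y j) a : ℝ))

theorem bound_fin {ι : Type} [Finite ι] {d : ℕ} (dig : ι → Fin d → ℤ) :
    ∃ K : ℕ, ∀ (i : ι) (a : Fin d), |(dig i a : ℝ)| ≤ K := by
  obtain ⟨K, hK⟩ := (Set.finite_range fun x : ι × Fin d => (|dig x.1 x.2|).toNat).bddAbove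
  refine ⟨K, fun i a => ?_⟩
  have := hK ⟨(i, a), rfl⟩
  simp only at this
  have h0 := abs_nonneg (dig i a)
  have h1 : |dig i a| ≤ K := by omega
  exact_mod_cast h1

theorem slo_cat {ι : Type} [Finite ι] {d M : ℕ} (hM : 2 ≤ M) (dig : ι → Fin d → ℤ) (n : ℕ)
    (w Y : ℕ → ι) (a : Fin d) : slo M dig (cat n w Y) a =
      (hor M (fun j => dig (w j)) n a : ℝ) / (M:ℝ) ^ n + slo M dig Y a / (M:ℝ) ^ n := by
  have hM1 : (1:ℝ) < M := by exact_mod_cast (by omega : 1 < M)
  obtain ⟨K, hK⟩ := bound_fin dig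
  unfold slo
  rw [ser_split hM1 (K := K) (fun j => hK _ _) n]
  have h1 := sum_eq_hor hM (fun j => dig (cat n w Y j)) a n
  rw [h1, hor_congr M (f := fun j => dig (cat n w Y j)) (f' := fun j => dig (w j))
    (fun j hj => congrArg dig (cat_lt w Y hj))]
  congr 2
  congr 1
  funext j
  rw [cat_add]

theorem pos_cat {Q ι : Type} [Finite Q] [Finite ι] {d M : ℕ} (hM : 2 ≤ M) (δ : Q → ι → Q)
    (α : Q → ι → Fin d → ℤ) (s : Q) (n : ℕ) (w Y : ℕ → ι) (a : Fin d) :
    pos M δ α s (cat n w Y) a =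
      (hor M (outs δ α s w) n a : ℝ) / (M:ℝ) ^ n + pos M δ α (st δ s w n) Y a / (M:ℝ) ^ n := by
  have hM1 : (1:ℝ) < M := by exact_mod_cast (by omega : 1 < M)
  obtain ⟨K, hK⟩ := bound_fin (fun x : Q × ι => α x.1 x.2)
  unfold pos
  rw [ser_split hM1 (f := fun j => (outs δ α s (cat n w Y) j a : ℝ)) (K := K)
    (fun j => hK (st δ s (cat n w Y) j, cat n w Y j) a) n]
  have h1 := sum_eq_hor hM (outs δ α s (cat n w Y)) a n
  rw [h1, hor_congr M (outs_congr δ α s (Y := cat n w Y) (Y' := w) (fun j hj => cat_lt w Y hj))]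
  congr 2
  congr 1
  funext j
  have h2 := congrFun (outs_add δ α s (cat n w Y) n) j
  rw [h2, st_congr δ s (Y := cat n w Y) (Y' := w) (fun j hj => cat_lt w Y hj)]
  have h3 : (fun j => cat n w Y (n + j)) = Y := by funext j; rw [cat_add]
  rw [h3]

/-- **Automatic families.**  For every prefix `w` of length `n`, a set which over the heights of an
interval contains the points of all the lines with the prefix `w` has dimension at least
`1 + log |ι| / log M`. -/
theorem aut_prefix {Q ι : Type} [Fintype Q] [Fintype ι] [Nonempty ι] {d M : ℕ} (hM : 2 ≤ M)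
    {dig : ι → Fin d → ℤ} (hdig : ∀ i i', (∀ a, (M:ℤ) ∣ dig i a - dig i' a) → i = i')
    (δ : Q → ι → Q) (α : Q → ι → Fin d → ℤ) (s : Q) (n : ℕ) (w : ℕ → ι)
    {x y : ℝ} (hxy : x < y) (S : Set (ℝ × (Fin d → ℝ)))
    (hS : ∀ τ ∈ Ioo x y, ∀ Y : ℕ → ι, (τ, fun a => pos M δ α s (cat n w Y) a +
      τ * slo M dig (cat n w Y) a) ∈ S) :
    ENNReal.ofReal (1 + Real.log (Fintype.card ι) / Real.log M) ≤ dimH S := by
  have hM0 : (0:ℝ) < M := by positivity
  -- extend the prefix to reach a recurrent state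
  obtain ⟨u, hu, hrec⟩ := exists_recurrent δ (st δ s w n)
  obtain ⟨m, r, hr⟩ := hu
  set W : ℕ → ι := cat n w r with hW
  have hstW : st δ s W (n + m) = u := by rw [hW, st_cat, hr]
  have h1 := aut_recurrent hM hdig δ α u hrec hxy
  refine h1.trans ?_
  -- the affine map
  let A : Fin d → ℝ := fun a => (hor M (outs δ α s W) (n + m) a : ℝ)
  let B : Fin d → ℝ := fun a => (hor M (fun j => dig (W j)) (n + m) a : ℝ)
  let F : ℝ × (Fin d → ℝ) → ℝ × (Fin d → ℝ) := fun z =>
    (z.1, fun a => (z.2 a + A a + z.1 * B a) / (M:ℝ) ^ (n + m))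
  have himg : F '' (aut M δ α dig u (Ioo x y)) ⊆ S := by
    rintro _ ⟨z, ⟨τ, hτ, Y, rfl⟩, rfl⟩
    have h2 := hS τ hτ (cat m r Y)
    have h3 : cat n w (cat m r Y) = cat (n + m) W Y := by
      funext j
      unfold cat
      rw [hW]
      unfold cat
      by_cases hj : j < n
      · rw [if_pos hj, if_pos (by omega), if_pos hj]
      · rw [if_neg hj]
        by_cases hj2 : j - n < m
        · rw [if_pos hj2, if_pos (by omega), if_neg hj]
        · rw [if_neg hj2, if_neg (by omega)]
          congr 1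
          omega
    rw [h3] at h2
    convert h2 using 1
    refine Prod.ext rfl ?_
    funext a
    simp only [F]
    rw [pos_cat hM, slo_cat hM, hstW]
    simp only [A, B, pos, slo]
    ring
  refine le_trans ?_ (dimH_mono himg)
  -- the inverse is Lipschitz
  obtain ⟨C, hC0, hC⟩ : ∃ C : ℝ, 0 ≤ C ∧ ∀ a, |B a| ≤ C := by
    obtain ⟨C, hC⟩ := (Set.finite_range fun a : Fin d => |B a|).bddAbove
    exact ⟨max C 0, le_max_right _ _, fun a => (hC ⟨a, rfl⟩).trans (le_max_left _ _)⟩
  set P : ℝ := (M:ℝ) ^ (n + m) with hP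
  have hP0 : 0 < P := by positivity
  have hanti : AntilipschitzWith (Real.toNNReal (1 + P + C)) F := by
    refine AntilipschitzWith.of_le_mul_dist fun z z' => ?_
    rw [Real.coe_toNNReal _ (by positivity)]
    have hd1 : dist z.1 z'.1 ≤ dist (F z) (F z') := le_max_left _ _
    have hd0 : 0 ≤ dist (F z) (F z') := dist_nonneg
    rw [Prod.dist_eq]
    refine max_le ?_ ?_
    · nlinarith
    · refine (dist_pi_le_iff (by positivity)).2 fun a => ?_
      have h2 : z.2 a - z'.2 a = P * ((F z).2 a - (F z').2 a) - (z.1 - z'.1) * B a := by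
        simp only [F]
        field_simp
        ring
      rw [Real.dist_eq, h2]
      have h3 : |(F z).2 a - (F z').2 a| ≤ dist (F z) (F z') := by
        rw [← Real.dist_eq]
        exact (dist_le_pi_dist _ _ a).trans (le_max_right _ _)
      have h4 : |z.1 - z'.1| ≤ dist (F z) (F z') := by rw [← Real.dist_eq]; exact hd1
      calc |P * ((F z).2 a - (F z').2 a) - (z.1 - z'.1) * B a|
          ≤ |P * ((F z).2 a - (F z').2 a)| + |(z.1 - z'.1) * B a| := abs_sub _ _
        _ ≤ P * dist (F z) (F z') + dist (F z) (F z') * C := by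
            rw [abs_mul, abs_mul, abs_of_pos hP0]
            exact add_le_add (mul_le_mul_of_nonneg_left h3 hP0.le)
              (mul_le_mul h4 (hC a) (abs_nonneg _) hd0)
        _ ≤ (1 + P + C) * dist (F z) (F z') := by nlinarith
  exact hanti.le_dimH_image _

end Pool.Agent.N269.AK
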