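import Pool.Agent.N269.AK.Aut

set_option autoImplicit false
set_option linter.unusedSectionVars false

/-!
# Closed sets which contain segments of the lines of an automatic family

The segments are arbitrary (nondegenerate); Baire's theorem in the space of input sequences gives a
common interval of heights for all the sequences with some prefix.
-/

open Set Filter Topology
open scoped ENNReal

namespace Pool.Agent.N269.AK

section
variable {ι : Type} [Finite ι] [TopologicalSpace ι] [DiscreteTopology ι]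

theorem continuous_ser {M : ℝ} (hM : 1 < M) (f : ℕ → (ℕ → ι) → ℝ)
    (hf : ∀ j, Continuous (f j)) {K : ℝ} (hK : ∀ j Y, |f j Y| ≤ K) :
    Continuous (fun Y => ser M (fun j => f j Y)) := by
  have hM0 : 0 < M := by linarith
  have h1 : Summable (fun j : ℕ => K / M * (1 / M) ^ j) :=
    (summable_geometric_of_lt_one (by positivity) ((div_lt_one hM0).2 hM)).mul_left _
  unfold ser
  refine continuous_tsum (fun j => (hf j).div_const _) h1 fun j Y => ?_
  rw [Real.norm_eq_abs, abs_div, abs_of_pos (pow_pos hM0 _), one_div, inv_pow, ← div_eq_mul_inv,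
    div_div, ← pow_succ']
  exact div_le_div_of_nonneg_right (hK j Y) (by positivity)

theorem continuous_st {Q : Type} [TopologicalSpace Q] [DiscreteTopology Q] (δ : Q → ι → Q) (s : Q)
    (n : ℕ) : Continuous (fun Y : ℕ → ι => st δ s Y n) := by
  induction n with
  | zero => exact continuous_const
  | succ n ih =>
    have h1 : Continuous (fun x : Q × ι => δ x.1 x.2) := continuous_of_discreteTopology
    exact h1.comp (ih.prodMk (continuous_apply n))

theorem continuous_pos {Q : Type} [Finite Q] {d M : ℕ} (hM : 2 ≤ M) (δ : Q → ι → Q)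
    (α : Q → ι → Fin d → ℤ) (s : Q) (a : Fin d) :
    Continuous (fun Y : ℕ → ι => pos M δ α s Y a) := by
  let _ : TopologicalSpace Q := ⊥
  have : DiscreteTopology Q := ⟨rfl⟩
  have hM1 : (1:ℝ) < M := by exact_mod_cast (by omega : 1 < M)
  obtain ⟨K, hK⟩ := bound_fin (fun x : Q × ι => α x.1 x.2)
  refine continuous_ser hM1 (fun j Y => (outs δ α s Y j a : ℝ)) (fun j => ?_) (K := K)
    (fun j Y => hK (st δ s Y j, Y j) a)
  have h1 : Continuous (fun x : Q × ι => ((α x.1 x.2 a : ℤ) : ℝ)) := continuous_of_discreteTopology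
  exact h1.comp ((continuous_st δ s j).prodMk (continuous_apply j))

theorem continuous_slo {d M : ℕ} (hM : 2 ≤ M) (dig : ι → Fin d → ℤ) (a : Fin d) :
    Continuous (fun Y : ℕ → ι => slo M dig Y a) := by
  have hM1 : (1:ℝ) < M := by exact_mod_cast (by omega : 1 < M)
  obtain ⟨K, hK⟩ := bound_fin dig
  refine continuous_ser hM1 (fun j Y => (dig (Y j) a : ℝ)) (fun j => ?_) (K := K)
    (fun j Y => hK (Y j) a)
  have h1 : Continuous (fun x : ι => ((dig x a : ℤ) : ℝ)) := continuous_of_discreteTopology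
  exact h1.comp (continuous_apply j)

/-- **Closed sets and automatic families.**  `S` is closed and contains, for all input sequences
outside of a countable union of closed sets without interior points, a nondegenerate segment of the
line given by the sequence. -/
theorem aut_closed {Q : Type} [Fintype Q] [Nonempty ι] {d M : ℕ} (hM : 2 ≤ M)
    {dig : ι → Fin d → ℤ} (hdig : ∀ i i', (∀ a, (M:ℤ) ∣ dig i a - dig i' a) → i = i')
    (δ : Q → ι → Q) (α : Q → ι → Fin d → ℤ) (s : Q) {κ : Type} [Countable κ]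
    (F : κ → Set (ℕ → ι)) (hFc : ∀ k, IsClosed (F k)) (hFi : ∀ k, interior (F k) = ∅)
    (S : Set (ℝ × (Fin d → ℝ))) (hS : IsClosed S)
    (h : ∀ Y : ℕ → ι, (∀ k, Y ∉ F k) → ∃ t₁ t₂ : ℝ, t₁ < t₂ ∧ ∀ τ ∈ Icc t₁ t₂,
      (τ, fun a => pos M δ α s Y a + τ * slo M dig Y a) ∈ S) :
    ENNReal.ofReal (1 + Real.log (Nat.card ι) / Real.log M) ≤ dimH S := by
  classical
  have : Fintype ι := Fintype.ofFinite ι
  let E : {x : ℚ × ℚ // x.1 < x.2} → Set (ℕ → ι) := fun x =>
    {Y | ∀ τ ∈ Icc (x.1.1 : ℝ) x.1.2, (τ, fun a => pos M δ α s Y a + τ * slo M dig Y a) ∈ S}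
  have hE : ∀ x, IsClosed (E x) := by
    intro x
    have h1 : E x = ⋂ τ ∈ Icc (x.1.1 : ℝ) x.1.2,
        (fun Y : ℕ → ι => ((τ, fun a => pos M δ α s Y a + τ * slo M dig Y a) :
          ℝ × (Fin d → ℝ))) ⁻¹' S := by
      ext Y
      simp [E]
    rw [h1]
    refine isClosed_biInter fun τ _ => hS.preimage ?_
    refine continuous_const.prodMk (continuous_pi fun a => ?_)
    exact (continuous_pos hM δ α s a).add (continuous_const.mul (continuous_slo hM dig a))
  let G : {x : ℚ × ℚ // x.1 < x.2} ⊕ κ → Set (ℕ → ι) := Sum.elim E F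
  have hGc : ∀ i, IsClosed (G i) := by
    rintro (x | k)
    · exact hE x
    · exact hFc k
  have hGU : ⋃ i, G i = univ := by
    rw [eq_univ_iff_forall]
    intro Y
    by_cases hY : ∃ k, Y ∈ F k
    · obtain ⟨k, hk⟩ := hY
      exact mem_iUnion.2 ⟨Sum.inr k, hk⟩
    · push Not at hY
      obtain ⟨t₁, t₂, h1, h2⟩ := h Y hY
      obtain ⟨p, hp1, hp2⟩ := exists_rat_btwn h1
      obtain ⟨q, hq1, hq2⟩ := exists_rat_btwn hp2
      refine mem_iUnion.2 ⟨Sum.inl ⟨(p, q), by exact_mod_cast hq1⟩, ?_⟩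
      intro τ hτ
      exact h2 τ ⟨hp1.le.trans hτ.1, hτ.2.trans hq2.le⟩
  obtain ⟨i, hi⟩ := nonempty_interior_of_iUnion_of_closed hGc hGU
  rcases i with x | k
  · obtain ⟨Y₀, hY₀⟩ := hi
    obtain ⟨U, ⟨Z, n, rfl⟩, hZ, hU⟩ :=
      (PiNat.isTopologicalBasis_cylinders (fun _ : ℕ => ι)).exists_subset_of_mem_open hY₀
        isOpen_interior
    have hxy : (x.1.1 : ℝ) < x.1.2 := by exact_mod_cast x.2
    have h2 := aut_prefix hM hdig δ α s n Z hxy S (fun τ hτ Y => by
      have h3 : cat n Z Y ∈ PiNat.cylinder Z n := by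
        rw [PiNat.mem_cylinder_iff]
        intro j hj
        exact cat_lt Z Y hj
      have h4 : cat n Z Y ∈ E x := interior_subset (hU h3)
      exact h4 τ ⟨hτ.1.le, hτ.2.le⟩)
    rwa [Nat.card_eq_fintype_card]
  · have h1 : interior (F k) = ∅ := hFi k
    have h2 : (interior (F k)).Nonempty := hi
    rw [h1] at h2
    exact absurd h2 not_nonempty_empty

end

/-! ### Digits -/

theorem ofDigits_lt_one {b : ℕ} (z : ℕ → Fin b) (k : ℕ) (hk : (z k : ℕ) + 1 < b) :
    Real.ofDigits z < 1 := by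
  have hb : 1 < b := by omega
  have hb1 : (1:ℝ) < b := by exact_mod_cast hb
  let z' : ℕ → Fin b := Function.update z k ⟨z k + 1, hk⟩
  have h1 : Real.ofDigits z < Real.ofDigits z' := by
    refine Summable.tsum_lt_tsum (i := k) (fun j => ?_) ?_ Real.summable_ofDigitsTerm
      Real.summable_ofDigitsTerm
    · by_cases hj : j = k
      · subst hj
        simp only [Real.ofDigitsTerm, z', Function.update_self]
        gcongr
        linarith
      · simp only [Real.ofDigitsTerm, z', Function.update_of_ne hj]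
        exact le_refl _
    · simp only [Real.ofDigitsTerm, z', Function.update_self]
      gcongr
      linarith
  exact h1.trans_le (Real.ofDigits_le_one _)

theorem digits_ofDigits {b : ℕ} [NeZero b] (hb : 2 ≤ b) (y : ℕ → Fin b)
    (hy : ∀ k, ∃ j, k ≤ j ∧ (y j : ℕ) + 1 < b) :
    Real.ofDigits y ∈ Ico (0:ℝ) 1 ∧ Real.digits (Real.ofDigits y) b = y := by
  have hb1 : (1:ℝ) < b := by exact_mod_cast (by omega : 1 < b)
  have hb0 : (0:ℝ) < b := by linarith
  have hlt : ∀ k, Real.ofDigits (fun j => y (j + k)) < 1 := by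
    intro k
    obtain ⟨j, hj, hj2⟩ := hy k
    refine ofDigits_lt_one _ (j - k) ?_
    rwa [Nat.sub_add_cancel hj]
  refine ⟨⟨Real.ofDigits_nonneg _, by simpa using hlt 0⟩, ?_⟩
  funext i
  -- the integer part of `x b^(i+1)`
  have hN : ∀ i : ℕ, ∃ N : ℕ, (b:ℝ) ^ i * ∑ j ∈ Finset.range i, Real.ofDigitsTerm y j = N := by
    intro i
    induction i with
    | zero => exact ⟨0, by simp⟩
    | succ i ih =>
      obtain ⟨N, hN⟩ := ih
      refine ⟨b * N + y i, ?_⟩
      rw [Finset.sum_range_succ, mul_add, pow_succ', mul_assoc, hN, Real.ofDigitsTerm, ← pow_succ',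
        mul_left_comm, mul_inv_cancel₀ (by positivity), mul_one]
      push_cast
      ring
  obtain ⟨N, hN⟩ := hN i
  have h1 := Real.ofDigits_eq_sum_add_ofDigits y (i + 1)
  have h2 : Real.ofDigits y * (b:ℝ) ^ (i + 1) =
      ((b * N + y i : ℕ) : ℝ) + Real.ofDigits (fun j => y (j + (i + 1))) := by
    rw [h1, add_mul, Finset.sum_range_succ, add_mul]
    have h3 : (∑ j ∈ Finset.range i, Real.ofDigitsTerm y j) * (b:ℝ) ^ (i + 1) = b * N := by
      rw [← hN, pow_succ]; ring
    have h4 : Real.ofDigitsTerm y i * (b:ℝ) ^ (i + 1) = y i := by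
      rw [Real.ofDigitsTerm, mul_assoc, inv_mul_cancel₀ (by positivity), mul_one]
    have h5 : ((b:ℝ) ^ (i + 1))⁻¹ * Real.ofDigits (fun j => y (j + (i + 1))) * (b:ℝ) ^ (i + 1) =
        Real.ofDigits (fun j => y (j + (i + 1))) := by
      field_simp
    rw [h3, h4, h5]
    push_cast
    ring
  have h3 : ⌊Real.ofDigits y * (b:ℝ) ^ (i + 1)⌋₊ = b * N + y i := by
    rw [h2]
    rw [Nat.floor_eq_iff (by have := Real.ofDigits_nonneg (fun j => y (j + (i + 1))); positivity)]
    refine ⟨?_, ?_⟩
    · have := Real.ofDigits_nonneg (fun j => y (j + (i + 1)))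
      linarith
    · have := hlt (i + 1)
      push_cast
      linarith
  unfold Real.digits
  rw [h3]
  apply Fin.ext
  rw [Fin.val_ofNat, Nat.mul_add_mod, Nat.mod_eq_of_lt (y i).2]

end Pool.Agent.N269.AK
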