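import Pool.Agent.N269.AK.Sym

set_option autoImplicit false

/-!
# Blocks of digits
-/

open Set Filter Topology

namespace Pool.Agent.N269.AK

theorem sum_eq_hor {d M : ℕ} (hM : 2 ≤ M) (f : ℕ → Fin d → ℤ) (a : Fin d) (n : ℕ) :
    ∑ j ∈ Finset.range n, (f j a : ℝ) / (M:ℝ) ^ (j + 1) = (hor M f n a : ℝ) / (M:ℝ) ^ n := by
  have hM0 : (M:ℝ) ≠ 0 := by positivity
  induction n with
  | zero => simp [hor]
  | succ n ih =>
    rw [Finset.sum_range_succ, ih, hor_succ, pow_succ]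
    push_cast
    field_simp

theorem ser_block {d M : ℕ} (hM : 2 ≤ M) (f : ℕ → Fin d → ℤ) (a : Fin d) {K : ℝ}
    (hf : ∀ j, |(f j a : ℝ)| ≤ K) {k : ℕ} (hk : 1 ≤ k) {K' : ℝ} {g : ℕ → ℤ}
    (hg : ∀ i, g i = hor M (fun j => f (i * k + j)) k a) (hgK : ∀ i, |(g i : ℝ)| ≤ K') :
    ser M (fun j => (f j a : ℝ)) = ser ((M:ℝ) ^ k) (fun i => (g i : ℝ)) := by
  have hM1 : (1:ℝ) < M := by exact_mod_cast (by omega : 1 < M)
  have hM0 : (M:ℝ) ≠ 0 := by positivity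
  have hMk : (1:ℝ) < (M:ℝ) ^ k := one_lt_pow₀ hM1 (by omega)
  have h1 := (ser_summable hM1 hf).hasSum.tendsto_sum_nat
  have h2 := (ser_summable hMk hgK).hasSum.tendsto_sum_nat
  have hk' : Tendsto (fun n : ℕ => n * k) atTop atTop :=
    tendsto_id.atTop_mul_const' (by omega)
  have h3 := h1.comp hk'
  refine tendsto_nhds_unique h3 (h2.congr fun n => ?_)
  simp only [Function.comp]
  rw [sum_eq_hor hM]
  induction n with
  | zero => simp [hor]
  | succ n ih =>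
    have e : ((M:ℝ) ^ k) ^ (n + 1) = (M:ℝ) ^ (n * k) * (M:ℝ) ^ k := by
      rw [pow_succ, ← pow_mul, mul_comm k n]
    rw [Finset.sum_range_succ, ih, add_mul, one_mul, hor_add, ← hg n, e, pow_add]
    push_cast
    field_simp

/-- Concatenation of the words `g (c 0), g (c 1), ...` of length `ℓ`. -/
def blk {ι κ : Type*} (ℓ : ℕ) (g : κ → ℕ → ι) (c : ℕ → κ) (n : ℕ) : ι := g (c (n / ℓ)) (n % ℓ)

theorem blk_apply {ι κ : Type*} {ℓ : ℕ} (g : κ → ℕ → ι) (c : ℕ → κ) (i : ℕ) {j : ℕ} (hj : j < ℓ) :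
    blk ℓ g c (i * ℓ + j) = g (c i) j := by
  unfold blk
  rw [Nat.mul_comm i ℓ, Nat.mul_add_div (by omega), Nat.div_eq_of_lt hj, Nat.mul_add_mod,
    Nat.mod_eq_of_lt hj, add_zero]

theorem st_blk {Q ι κ : Type*} {δ : Q → ι → Q} {s : Q} {ℓ : ℕ} {g : κ → ℕ → ι}
    (hloop : ∀ v, st δ s (g v) ℓ = s) (c : ℕ → κ) (i : ℕ) : st δ s (blk ℓ g c) (i * ℓ) = s := by
  induction i with
  | zero => rw [zero_mul]; rfl
  | succ i ih =>
    rw [add_mul, one_mul, st_add, ih, st_congr δ s (Y' := g (c i)), hloop]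
    intro j hj
    exact blk_apply g c i hj

theorem outs_blk {Q ι κ : Type*} {d : ℕ} {δ : Q → ι → Q} {α : Q → ι → Fin d → ℤ} {s : Q} {ℓ : ℕ}
    {g : κ → ℕ → ι} (hloop : ∀ v, st δ s (g v) ℓ = s) (c : ℕ → κ) (i : ℕ) {j : ℕ} (hj : j < ℓ) :
    outs δ α s (blk ℓ g c) (i * ℓ + j) = outs δ α s (g (c i)) j := by
  unfold outs
  rw [st_add, st_blk hloop, blk_apply g c i hj]
  congr 1
  apply st_congr
  intro j' hj'
  exact blk_apply g c i (by omega)

/-- The union, over the heights `τ ∈ T`, of the lines given by an automaton. -/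
def aut {Q ι : Type*} {d : ℕ} (M : ℝ) (δ : Q → ι → Q) (α : Q → ι → Fin d → ℤ) (dig : ι → Fin d → ℤ)
    (s : Q) (T : Set ℝ) : Set (ℝ × (Fin d → ℝ)) :=
  {z | ∃ τ ∈ T, ∃ Y : ℕ → ι, z = (τ, fun a => ser M (fun j => (outs δ α s Y j a : ℝ)) +
    τ * ser M (fun j => (dig (Y j) a : ℝ)))}

theorem fam_subset_aut {Q ι κ : Type*} [Finite Q] [Finite ι] {d M : ℕ} (hM : 2 ≤ M)
    {δ : Q → ι → Q} {α : Q → ι → Fin d → ℤ} {dig : ι → Fin d → ℤ} {s : Q} {ℓ : ℕ} (hℓ : 1 ≤ ℓ)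
    {g : κ → ℕ → ι} (hloop : ∀ v, st δ s (g v) ℓ = s) (T : Set ℝ) :
    fam ((M:ℝ) ^ ℓ) (fun v a => (hor M (outs δ α s (g v)) ℓ a : ℝ))
      (fun v a => (hor M (fun j => dig (g v j)) ℓ a : ℝ)) T ⊆ aut M δ α dig s T := by
  rintro z ⟨τ, hτ, c, rfl⟩
  refine ⟨τ, hτ, blk ℓ g c, ?_⟩
  -- bounds
  obtain ⟨K, hK⟩ : ∃ K : ℕ, ∀ (q : Q) (i : ι) (a : Fin d), |α q i a| ≤ K := by
    obtain ⟨K, hK⟩ := (Set.finite_range fun x : Q × ι × Fin d => (|α x.1 x.2.1 x.2.2|).toNat).bddAbove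
    refine ⟨K, fun q i a => ?_⟩
    have := hK ⟨(q, i, a), rfl⟩
    simp only at this
    have h0 := abs_nonneg (α q i a)
    omega
  obtain ⟨K', hK'⟩ : ∃ K : ℕ, ∀ (i : ι) (a : Fin d), |dig i a| ≤ K := by
    obtain ⟨K, hK⟩ := (Set.finite_range fun x : ι × Fin d => (|dig x.1 x.2|).toNat).bddAbove
    refine ⟨K, fun i a => ?_⟩
    have := hK ⟨(i, a), rfl⟩
    simp only at this
    have h0 := abs_nonneg (dig i a)
    omega
  refine Prod.ext rfl ?_
  funext a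
  simp only
  congr 1
  · symm
    refine ser_block hM _ a (K := K) (K' := (K * ((M:ℤ) ^ ℓ - 1) : ℤ)) (fun j => ?_) hℓ
      (fun i => ?_) (fun i => ?_)
    · have := hK (st δ s (blk ℓ g c) j) (blk ℓ g c j) a
      unfold outs
      exact_mod_cast this
    · exact congrFun (hor_congr M fun j hj => (outs_blk hloop c i hj).symm) a
    · have := hor_abs_le hM (f := outs δ α s (g (c i))) (a := a) (K := K) (fun j => hK _ _ _) ℓ
      exact_mod_cast this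
  · congr 1
    symm
    refine ser_block hM (fun j => dig (blk ℓ g c j)) a (K := K') (K' := (K' * ((M:ℤ) ^ ℓ - 1) : ℤ))
      (fun j => ?_) hℓ (fun i => ?_) (fun i => ?_)
    · have := hK' (blk ℓ g c j) a
      exact_mod_cast this
    · exact congrFun (hor_congr M fun j hj => by
        show dig (g (c i) j) = dig (blk ℓ g c (i * ℓ + j))
        rw [blk_apply g c i hj]) a
    · have := hor_abs_le hM (f := fun j => dig (g (c i) j)) (a := a) (K := K') (fun j => hK' _ _) ℓ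
      exact_mod_cast this

end Pool.Agent.N269.AK
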