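import Mathlib

set_option autoImplicit false

/-!
# Hausdorff dimension of sets with an expanding coding
-/

open Set Filter Topology
open scoped ENNReal NNReal

namespace Pool.Agent.N269.AK

/-- If the points of a set are coded by sequences of `g` digits, and points whose codes differ for
the first time at the place `n` have distance at least `c / L ^ n`, then the dimension is at least
`log g / log L`. -/
theorem dim_coding {E : Type*} [MetricSpace E] {g : ℕ} (hg : 2 ≤ g) {L c : ℝ} (hL : 1 < L)
    (hc : 0 < c) (Φ : (ℕ → Fin g) → E)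
    (h : ∀ x y : ℕ → Fin g, ∀ n, (∀ j < n, x j = y j) → x n ≠ y n → c / L ^ n ≤ dist (Φ x) (Φ y)) :
    ENNReal.ofReal (Real.log g / Real.log L) ≤ dimH (range Φ) := by
  classical
  have hg1 : (1 : ℝ) < g := by exact_mod_cast (by omega : 1 < g)
  have hL0 : 0 < L := by linarith
  have hlogL : 0 < Real.log L := Real.log_pos hL
  have hlogg : 0 < Real.log g := Real.log_pos hg1
  set s : ℝ := Real.log g / Real.log L with hs
  have hs0 : 0 < s := div_pos hlogg hlogL
  have hLs : ∀ n : ℕ, (1 / L ^ n) ^ s = ((g : ℝ) ^ n)⁻¹ := by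
    intro n
    rw [one_div, Real.inv_rpow (by positivity), ← Real.rpow_natCast, ← Real.rpow_mul hL0.le,
      ← Real.rpow_natCast]
    congr 1
    rw [mul_comm, Real.rpow_mul hL0.le]
    congr 1
    rw [Real.rpow_def_of_pos hL0, hs, mul_div_cancel₀ _ hlogL.ne', Real.exp_log (by linarith)]
  have hdiff : ∀ x y : ℕ → Fin g, x ≠ y → ∃ n, (∀ j < n, x j = y j) ∧ x n ≠ y n := by
    intro x y hxy
    have hex : ∃ n, x n ≠ y n := by
      by_contra hcon
      push Not at hcon
      exact hxy (funext hcon)
    refine ⟨Nat.find hex, fun j hj => ?_, Nat.find_spec hex⟩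
    have := Nat.find_min hex hj
    push Not at this
    exact this
  have hinj : Function.Injective Φ := by
    intro x y hxy
    by_contra hne
    obtain ⟨n, h1, h2⟩ := hdiff x y hne
    have h3 := h x y n h1 h2
    rw [hxy, dist_self] at h3
    have : 0 < c / L ^ n := by positivity
    linarith
  have : Nonempty (ℕ → Fin g) := ⟨fun _ => ⟨0, by omega⟩⟩
  let ψ : E → ℝ := fun e => Real.ofDigits (Function.invFun Φ e)
  have hψ : ∀ x, ψ (Φ x) = Real.ofDigits x := fun x => by
    simp only [ψ]; rw [Function.leftInverse_invFun hinj x]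
  have hholder : HolderOnWith (Real.toNNReal ((1 / c) ^ s)) (Real.toNNReal s) ψ (range Φ) := by
    rintro _ ⟨x, rfl⟩ _ ⟨y, rfl⟩
    rw [hψ, hψ]
    by_cases hxy : x = y
    · rw [hxy, edist_self]; exact zero_le
    obtain ⟨n, h1, h2⟩ := hdiff x y hxy
    have h3 := h x y n h1 h2
    have h4 := Real.abs_ofDigits_sub_ofDigits_le h1
    rw [edist_dist, edist_dist, Real.dist_eq, Real.coe_toNNReal _ hs0.le,
      ENNReal.ofReal_rpow_of_nonneg dist_nonneg hs0.le, ← ENNReal.ofReal_coe_nnreal,
      Real.coe_toNNReal _ (by positivity), ← ENNReal.ofReal_mul (by positivity)]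
    apply ENNReal.ofReal_le_ofReal
    refine h4.trans ?_
    rw [← hLs, ← Real.mul_rpow (by positivity) dist_nonneg]
    apply Real.rpow_le_rpow (by positivity) _ hs0.le
    rw [div_le_iff₀ (by positivity)] at h3
    rw [div_le_iff₀ (by positivity), one_div, mul_assoc, ← div_eq_inv_mul, le_div_iff₀ hc]
    linarith
  have h1 := hholder.dimH_image_le (by simpa using hs0)
  have h2 : (1 : ℝ≥0∞) ≤ dimH (ψ '' range Φ) := by
    have h3 : Ico (0:ℝ) 1 ⊆ ψ '' range Φ := by
      intro v hv
      have : NeZero g := ⟨by omega⟩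
      refine ⟨Φ (Real.digits v g), mem_range_self _, ?_⟩
      rw [hψ, Real.ofDigits_digits (by omega) hv]
    calc (1 : ℝ≥0∞) = dimH (Ico (0:ℝ) 1) := by
          rw [Real.dimH_of_nonempty_interior (by rw [interior_Ico]; exact nonempty_Ioo.2 one_pos)]
          simp
      _ ≤ _ := dimH_mono h3
  have h3 := h2.trans h1
  have h4 : ((Real.toNNReal s : ℝ≥0) : ℝ≥0∞) ≠ 0 := by
    simpa using hs0
  rw [ENNReal.le_div_iff_mul_le (Or.inl h4) (Or.inl ENNReal.coe_ne_top), one_mul] at h3
  exact h3

end Pool.Agent.N269.AK
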