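import Mathlib

set_option autoImplicit false

/-!
# The ring `ℤ[ζ]`, `ζ` a primitive `p^k`-th root of unity, and its residue field `ℤ/p`
-/

open Polynomial

namespace Pool.Agent.N269.AK

theorem exists_ring (p k : ℕ) [hp : Fact p.Prime] (hk : 1 ≤ k) :
    ∃ (O : Type) (_ : CommRing O) (_ : IsDomain O) (ζ : O) (φ : O →+* ZMod p),
      IsPrimitiveRoot ζ (p ^ k) ∧ φ ζ = 1 ∧ (∀ c, φ c = 0 → (ζ - 1) ∣ c) ∧
      (∀ c, c ≠ 0 → ∃ n : ℕ, ¬ (ζ - 1) ^ n ∣ c) := by
  have hq : 0 < p ^ k := pow_pos hp.out.pos k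
  set f : ℤ[X] := cyclotomic (p ^ k) ℤ with hf
  have hirr : Irreducible f := cyclotomic.irreducible hq
  have hprime : Prime f := hirr.prime
  have : IsDomain (AdjoinRoot f) := AdjoinRoot.isDomain_of_prime hprime
  set ζ : AdjoinRoot f := AdjoinRoot.root f with hζ
  have hev : f.eval 1 = p := by
    obtain ⟨j, rfl⟩ : ∃ j, k = j + 1 := ⟨k - 1, by omega⟩
    exact eval_one_cyclotomic_prime_pow j
  have h0 : f.eval₂ (Int.castRingHom (ZMod p)) 1 = 0 := by
    rw [eval₂_at_one, hev]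
    simp
  set φ : AdjoinRoot f →+* ZMod p := AdjoinRoot.lift (Int.castRingHom (ZMod p)) 1 h0 with hφ
  have hφζ : φ ζ = 1 := by rw [hφ, hζ, AdjoinRoot.lift_root]
  have hinj : Function.Injective (algebraMap ℤ (AdjoinRoot f)) := by
    have : Function.Injective (AdjoinRoot.of f) := by
      apply AdjoinRoot.of.injective_of_degree_ne_zero
      rw [hf, degree_cyclotomic]
      simp [Nat.totient_pos.2 hq |>.ne']
    exact this
  have hcz : CharZero (AdjoinRoot f) := charZero_of_injective_algebraMap hinj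
  have hprim : IsPrimitiveRoot ζ (p ^ k) := by
    have : NeZero ((p ^ k : ℕ) : AdjoinRoot f) := ⟨by exact_mod_cast hq.ne'⟩
    rw [← isRoot_cyclotomic_iff]
    have h1 := AdjoinRoot.eval₂_root f
    rw [IsRoot.def, ← map_cyclotomic (p ^ k) (AdjoinRoot.of f), eval_map]
    exact h1
  refine ⟨AdjoinRoot f, inferInstance, inferInstance, ζ, φ, hprim, hφζ, ?_, ?_⟩
  · -- the kernel
    have hX : ∀ g : ℤ[X], (ζ - 1) ∣ AdjoinRoot.mk f g - AdjoinRoot.mk f (C (g.eval 1)) := by
      intro g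
      have h1 : (X - C 1) ∣ g - C (g.eval 1) := X_sub_C_dvd_sub_C_eval
      obtain ⟨r, hr⟩ := h1
      refine ⟨AdjoinRoot.mk f r, ?_⟩
      rw [← map_sub, hr, map_mul]
      simp [hζ]
    have hp1 : (ζ - 1) ∣ AdjoinRoot.mk f (C (p : ℤ)) := by
      have h1 := hX f
      rw [hev, AdjoinRoot.mk_self, zero_sub, dvd_neg] at h1
      exact h1
    intro c hc
    obtain ⟨g, rfl⟩ := AdjoinRoot.mk_surjective c
    have h1 := hX g
    have h2 : (p : ℤ) ∣ g.eval 1 := by
      rw [hφ, AdjoinRoot.lift_mk, eval₂_at_one] at hc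
      rw [← ZMod.intCast_zmod_eq_zero_iff_dvd] 
      simpa using hc
    obtain ⟨m, hm⟩ := h2
    have h3 : (ζ - 1) ∣ AdjoinRoot.mk f (C (g.eval 1)) := by
      rw [hm, C_mul, map_mul]
      exact Dvd.dvd.mul_right hp1 _
    have h4 := dvd_add h1 h3
    rwa [sub_add_cancel] at h4
  · intro c hc
    have hnu : ¬ IsUnit (ζ - 1) := by
      intro hu
      have h1 := hu.map φ
      rw [map_sub, hφζ, map_one, sub_self] at h1
      exact not_isUnit_zero h1
    have : IsNoetherianRing (AdjoinRoot f) := inferInstance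
    have : WfDvdMonoid (AdjoinRoot f) := inferInstance
    obtain ⟨n, hn⟩ := FiniteMultiplicity.of_not_isUnit hnu hc
    exact ⟨n + 1, hn⟩

end Pool.Agent.N269.AK
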