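import Pool.Agent.N269.AK.Code

set_option autoImplicit false

/-!
# Separated self-similar families of lines

`ser L f = ∑ f_j / L^(j+1)`.  A finite set of digits `(u_h, D_h)` for which the points
`u_h + τ D_h` are separated, for all heights `τ` of an interval, gives a family of lines whose
union has dimension at least `log (|H| ⌊L/2⌋) / log L`.
-/

open Set Filter Topology
open scoped ENNReal NNReal

namespace Pool.Agent.N269.AK

/-- `∑ f_j / L^(j+1)` -/
noncomputable def ser (L : ℝ) (f : ℕ → ℝ) : ℝ := ∑' j, f j / L ^ (j + 1)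

theorem ser_summable {L : ℝ} (hL : 1 < L) {f : ℕ → ℝ} {K : ℝ} (hf : ∀ j, |f j| ≤ K) :
    Summable (fun j => f j / L ^ (j + 1)) := by
  have hL0 : 0 < L := by linarith
  have h1 : Summable (fun j : ℕ => K / L * (1 / L) ^ j) :=
    (summable_geometric_of_lt_one (by positivity) ((div_lt_one hL0).2 hL)).mul_left _
  refine Summable.of_norm_bounded h1 fun j => ?_
  rw [Real.norm_eq_abs, abs_div, abs_of_pos (pow_pos hL0 _), one_div, inv_pow, ← div_eq_mul_inv,
    div_div, ← pow_succ']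
  exact div_le_div_of_nonneg_right (hf j) (by positivity)

theorem ser_abs_le {L : ℝ} (hL : 1 < L) {f : ℕ → ℝ} {K : ℝ} (hf : ∀ j, |f j| ≤ K) :
    |ser L f| ≤ K / (L - 1) := by
  have hL0 : 0 < L := by linarith
  have h1 : HasSum (fun j : ℕ => K / L * (1 / L) ^ j) (K / L * (1 - 1 / L)⁻¹) :=
    (hasSum_geometric_of_lt_one (by positivity) ((div_lt_one hL0).2 hL)).mul_left _
  have h2 : K / L * (1 - 1 / L)⁻¹ = K / (L - 1) := by
    have : L - 1 ≠ 0 := by linarith
    field_simp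
  rw [h2] at h1
  unfold ser
  rw [← Real.norm_eq_abs]
  refine tsum_of_norm_bounded h1 fun j => ?_
  rw [Real.norm_eq_abs, abs_div, abs_of_pos (pow_pos hL0 _), one_div, inv_pow, ← div_eq_mul_inv,
    div_div, ← pow_succ']
  exact div_le_div_of_nonneg_right (hf j) (by positivity)

theorem ser_add {L : ℝ} (hL : 1 < L) {f f' : ℕ → ℝ} {K K' : ℝ} (hf : ∀ j, |f j| ≤ K)
    (hf' : ∀ j, |f' j| ≤ K') : ser L (fun j => f j + f' j) = ser L f + ser L f' := by
  unfold ser
  rw [← (ser_summable hL hf).tsum_add (ser_summable hL hf')]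
  congr 1
  funext j
  ring

theorem ser_smul {L : ℝ} (c : ℝ) (f : ℕ → ℝ) : ser L (fun j => c * f j) = c * ser L f := by
  unfold ser
  rw [← tsum_mul_left]
  congr 1
  funext j
  ring

theorem ser_split {L : ℝ} (hL : 1 < L) {f : ℕ → ℝ} {K : ℝ} (hf : ∀ j, |f j| ≤ K) (n : ℕ) :
    ser L f = ∑ j ∈ Finset.range n, f j / L ^ (j + 1) + ser L (fun j => f (n + j)) / L ^ n := by
  have hL0 : 0 < L := by linarith
  unfold ser
  rw [← (ser_summable hL hf).sum_add_tsum_nat_add n, div_eq_mul_inv, ← tsum_mul_right]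
  congr 2
  funext j
  show f (j + n) / L ^ (j + n + 1) = f (n + j) / L ^ (j + 1) * (L ^ n)⁻¹
  rw [add_comm n j, show j + n + 1 = (j + 1) + n by ring, pow_add]
  field_simp

/-- First difference at the place `n`. -/
theorem ser_diff {L : ℝ} (hL : 1 < L) {f f' : ℕ → ℝ} {K K' B : ℝ} (hf : ∀ j, |f j| ≤ K)
    (hf' : ∀ j, |f' j| ≤ K') (n : ℕ) (h : ∀ j < n, f j = f' j)
    (hB : ∀ j, n < j → |f j - f' j| ≤ B) :
    |(ser L f - ser L f') - (f n - f' n) / L ^ (n + 1)| ≤ B / (L - 1) / L ^ (n + 1) := by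
  have hL0 : 0 < L := by linarith
  rw [ser_split hL hf (n + 1), ser_split hL hf' (n + 1), Finset.sum_range_succ,
    Finset.sum_range_succ]
  have h1 : ∑ j ∈ Finset.range n, f j / L ^ (j + 1) = ∑ j ∈ Finset.range n, f' j / L ^ (j + 1) :=
    Finset.sum_congr rfl fun j hj => by rw [h j (Finset.mem_range.1 hj)]
  rw [h1]
  have h2 : ser L (fun j => f (n + 1 + j)) - ser L (fun j => f' (n + 1 + j)) =
      ser L (fun j => f (n + 1 + j) + (-1) * f' (n + 1 + j)) := by
    rw [ser_add hL (K := K) (K' := K') (fun j => hf _) (fun j => by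
      rw [abs_mul, abs_neg, abs_one, one_mul]; exact hf' _), ser_smul]
    ring
  have h3 : |ser L (fun j => f (n + 1 + j) + (-1) * f' (n + 1 + j))| ≤ B / (L - 1) := by
    refine ser_abs_le hL fun j => ?_
    have := hB (n + 1 + j) (by omega)
    rwa [neg_one_mul, ← sub_eq_add_neg]
  rw [← h2] at h3
  have h4 : (∑ j ∈ Finset.range n, f' j / L ^ (j + 1) + f n / L ^ (n + 1) +
      ser L (fun j => f (n + 1 + j)) / L ^ (n + 1) -
      (∑ j ∈ Finset.range n, f' j / L ^ (j + 1) + f' n / L ^ (n + 1) +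
        ser L (fun j => f' (n + 1 + j)) / L ^ (n + 1))) - (f n - f' n) / L ^ (n + 1) =
      (ser L (fun j => f (n + 1 + j)) - ser L (fun j => f' (n + 1 + j))) / L ^ (n + 1) := by
    ring
  rw [h4, abs_div, abs_of_pos (pow_pos hL0 _)]
  exact div_le_div_of_nonneg_right h3 (by positivity)

/-- The union of the lines of the self-similar family with digits `u`, `D` over the heights
`τ ∈ T`. -/
def fam {H : Type*} {d : ℕ} (L : ℝ) (u D : H → Fin d → ℝ) (T : Set ℝ) : Set (ℝ × (Fin d → ℝ)) :=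
  {z | ∃ τ ∈ T, ∃ c : ℕ → H, z = (τ, fun a => ser L (fun j => u (c j) a) +
    τ * ser L (fun j => D (c j) a))}

theorem dim_sep {H : Type*} [Fintype H] [Nonempty H] {d L : ℕ} (hL : 4 ≤ L) (u D : H → Fin d → ℝ)
    {A τ₀ η : ℝ} (hη : 0 < η) (hA : 0 ≤ A)
    (hu : ∀ h a, ∀ τ ∈ Icc τ₀ (τ₀ + η), |u h a + τ * D h a| ≤ A * L)
    (hD : ∀ h a, |D h a| ≤ A * L)
    (hsep : ∀ h h', h ≠ h' → ∀ τ ∈ Icc τ₀ (τ₀ + η), ∃ a,
      4 * A + 1 ≤ |(u h a + τ * D h a) - (u h' a + τ * D h' a)|) :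
    ENNReal.ofReal (Real.log ((Fintype.card H * (L / 2) : ℕ) : ℝ) / Real.log L) ≤
      dimH (fam L u D (Icc τ₀ (τ₀ + η))) := by
  classical
  have hL4 : (4 : ℝ) ≤ L := by exact_mod_cast hL
  have hL1 : (1 : ℝ) < L := by linarith
  have hL0 : (0 : ℝ) < L := by linarith
  set g := Fintype.card H * (L / 2) with hg
  have hcard : 1 ≤ Fintype.card H := Fintype.card_pos
  have hL2 : 2 ≤ L / 2 := by omega
  have hg2 : 2 ≤ g := by rw [hg]; nlinarith
  set η' := min η (1 / 2) with hη'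
  have hη'0 : 0 < η' := lt_min hη (by norm_num)
  have hη'1 : η' ≤ 1 / 2 := min_le_right _ _
  have hη'2 : η' ≤ η := min_le_left _ _
  let eqv : Fin g ≃ H × Fin (L / 2) :=
    finProdFinEquiv.symm.trans ((Fintype.equivFin H).symm.prodCongr (Equiv.refl _))
  let dg : (ℕ → Fin g) → ℕ → ℝ := fun x j => 2 * ((eqv (x j)).2 : ℕ)
  have hdg0 : ∀ x j, 0 ≤ dg x j := fun x j => by positivity
  have hdg1 : ∀ x j, dg x j ≤ L - 2 := by
    intro x j
    have h1 : ((eqv (x j)).2 : ℕ) + 1 ≤ L / 2 := (eqv (x j)).2.2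
    have h2 : 2 * ((eqv (x j)).2 : ℕ) + 2 ≤ L := by omega
    have h3 : (2 * ((eqv (x j)).2 : ℕ) + 2 : ℝ) ≤ L := by exact_mod_cast h2
    simp only [dg]
    linarith
  have hdgabs : ∀ x j, |dg x j| ≤ L - 1 := fun x j => by
    rw [abs_of_nonneg (hdg0 x j)]; linarith [hdg1 x j]
  let τ : (ℕ → Fin g) → ℝ := fun x => τ₀ + η' * ser L (dg x)
  have hser0 : ∀ x, 0 ≤ ser L (dg x) := fun x => tsum_nonneg fun j =>
    div_nonneg (hdg0 x j) (by positivity)
  have hser1 : ∀ x, ser L (dg x) ≤ 1 := fun x => by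
    have := ser_abs_le hL1 (hdgabs x)
    rw [div_self (by linarith)] at this
    exact (le_abs_self _).trans this
  have hτ : ∀ x, τ x ∈ Icc τ₀ (τ₀ + η) := fun x => by
    constructor
    · have := mul_nonneg hη'0.le (hser0 x)
      simp only [τ]; linarith
    · have : η' * ser L (dg x) ≤ η' * 1 := mul_le_mul_of_nonneg_left (hser1 x) hη'0.le
      simp only [τ]; linarith
  let Φ : (ℕ → Fin g) → ℝ × (Fin d → ℝ) := fun x => (τ x, fun a =>
    ser L (fun j => u (eqv (x j)).1 a) + τ x * ser L (fun j => D (eqv (x j)).1 a))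
  have hub : ∀ h a, |u h a| ≤ A * L + |τ₀| * (A * L) := by
    intro h a
    have h1 := hu h a τ₀ ⟨le_refl _, by linarith⟩
    have h2 : u h a = (u h a + τ₀ * D h a) + (-τ₀) * D h a := by ring
    rw [h2]
    refine (abs_add_le _ _).trans (add_le_add h1 ?_)
    rw [abs_mul, abs_neg]
    exact mul_le_mul_of_nonneg_left (hD h a) (abs_nonneg _)
  have hcomb : ∀ (t : ℝ) (x : ℕ → Fin g) (a : Fin d),
      ser L (fun j => u (eqv (x j)).1 a) + t * ser L (fun j => D (eqv (x j)).1 a) =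
      ser L (fun j => u (eqv (x j)).1 a + t * D (eqv (x j)).1 a) := by
    intro t x a
    rw [ser_add hL1 (K := A * L + |τ₀| * (A * L)) (K' := |t| * (A * L)) (fun j => hub _ a)
      (fun j => by rw [abs_mul]; exact mul_le_mul_of_nonneg_left (hD _ _) (abs_nonneg _)), ser_smul]
  have hsub : range Φ ⊆ fam L u D (Icc τ₀ (τ₀ + η)) := by
    rintro _ ⟨x, rfl⟩
    exact ⟨τ x, hτ x, fun j => (eqv (x j)).1, rfl⟩
  refine le_trans ?_ (dimH_mono hsub)
  refine dim_coding hg2 hL1 (c := η' / L) (by positivity) Φ ?_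
  intro x y n hxy hne
  have hpow : η' / L / L ^ n = η' / L ^ (n + 1) := by rw [div_div, ← pow_succ']
  rw [hpow]
  have hdgxy : ∀ j < n, dg x j = dg y j := fun j hj => by simp only [dg]; rw [hxy j hj]
  have hdgB : ∀ j, n < j → |dg x j - dg y j| ≤ L - 2 := by
    intro j _
    rw [abs_le]
    constructor <;> linarith [hdg0 x j, hdg0 y j, hdg1 x j, hdg1 y j]
  have hd1 := ser_diff hL1 (hdgabs x) (hdgabs y) n hdgxy hdgB
  have hLn : (0 : ℝ) < L ^ (n + 1) := by positivity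
  have hfrac : ((L : ℝ) - 2) / (L - 1) ≤ 1 := by
    rw [div_le_one (by linarith)]; linarith
  have hd2 : |ser L (dg x) - ser L (dg y) - (dg x n - dg y n) / L ^ (n + 1)| ≤ 1 / L ^ (n + 1) :=
    hd1.trans (div_le_div_of_nonneg_right hfrac hLn.le)
  have hττ : τ x - τ y = η' * (ser L (dg x) - ser L (dg y)) := by simp only [τ]; ring
  by_cases hcase : (eqv (x n)).2 = (eqv (y n)).2
  · -- the positions differ
    have hHne : (eqv (x n)).1 ≠ (eqv (y n)).1 := by
      intro h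
      exact hne (eqv.injective (Prod.ext h hcase))
    have hdgn : dg x n = dg y n := by simp only [dg]; rw [hcase]
    rw [hdgn, sub_self, zero_div, sub_zero] at hd2
    have hττ2 : |τ x - τ y| ≤ η' / L ^ (n + 1) := by
      rw [hττ, abs_mul, abs_of_pos hη'0]
      calc η' * _ ≤ η' * (1 / L ^ (n + 1)) := mul_le_mul_of_nonneg_left hd2 hη'0.le
        _ = _ := by ring
    obtain ⟨a, ha⟩ := hsep _ _ hHne (τ x) (hτ x)
    set fx : ℕ → ℝ := fun j => u (eqv (x j)).1 a + τ x * D (eqv (x j)).1 a with hfx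
    set fy : ℕ → ℝ := fun j => u (eqv (y j)).1 a + τ x * D (eqv (y j)).1 a with hfy
    have hfxb : ∀ j, |fx j| ≤ A * L := fun j => hu _ a _ (hτ x)
    have hfyb : ∀ j, |fy j| ≤ A * L := fun j => hu _ a _ (hτ x)
    have h1 := ser_diff hL1 hfxb hfyb n (fun j hj => by simp only [hfx, hfy]; rw [hxy j hj])
      (B := 2 * (A * L)) (fun j _ => by
        have := abs_sub (fx j) (fy j)
        linarith [hfxb j, hfyb j])
    have h2 : 2 * (A * L) / (L - 1) ≤ 3 * A := by
      rw [div_le_iff₀ (by linarith)]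
      nlinarith
    have h3 : |(fx n - fy n) / L ^ (n + 1)| ≥ (4 * A + 1) / L ^ (n + 1) := by
      rw [abs_div, abs_of_pos hLn]
      exact div_le_div_of_nonneg_right ha hLn.le
    have h4 : (A + 1) / L ^ (n + 1) ≤ |ser L fx - ser L fy| := by
      have h5 : |(fx n - fy n) / L ^ (n + 1)| ≤ |ser L fx - ser L fy| +
          |ser L fx - ser L fy - (fx n - fy n) / L ^ (n + 1)| := by
        have := abs_sub (ser L fx - ser L fy) (ser L fx - ser L fy - (fx n - fy n) / L ^ (n + 1))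
        rwa [sub_sub_cancel] at this
      have h6 : 2 * (A * L) / (L - 1) / L ^ (n + 1) ≤ 3 * A / L ^ (n + 1) :=
        div_le_div_of_nonneg_right h2 hLn.le
      have h7 : (A + 1) / (L:ℝ) ^ (n + 1) =
          (4 * A + 1) / L ^ (n + 1) - 3 * A / L ^ (n + 1) := by ring
      rw [h7]
      linarith
    have h5 : |ser L (fun j => D (eqv (y j)).1 a)| ≤ 2 * A := by
      have := ser_abs_le hL1 (f := fun j => D (eqv (y j)).1 a) (fun j => hD _ a)
      refine this.trans ?_
      rw [div_le_iff₀ (by linarith)]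
      nlinarith
    have h6 : (Φ x).2 a - (Φ y).2 a = (ser L fx - ser L fy) +
        (τ x - τ y) * ser L (fun j => D (eqv (y j)).1 a) := by
      simp only [Φ]
      rw [hfx, hfy, ← hcomb, ← hcomb]
      ring
    have h7 : |(τ x - τ y) * ser L (fun j => D (eqv (y j)).1 a)| ≤ A / L ^ (n + 1) := by
      rw [abs_mul]
      calc _ ≤ η' / L ^ (n + 1) * (2 * A) := mul_le_mul hττ2 h5 (abs_nonneg _) (by positivity)
        _ ≤ (1 / 2) / L ^ (n + 1) * (2 * A) := by gcongr
        _ = _ := by ring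
    have h8 : 1 / (L:ℝ) ^ (n + 1) ≤ |(Φ x).2 a - (Φ y).2 a| := by
      rw [h6]
      have h9 := abs_sub_abs_le_abs_sub (ser L fx - ser L fy)
        (-((τ x - τ y) * ser L (fun j => D (eqv (y j)).1 a)))
      rw [sub_neg_eq_add, abs_neg] at h9
      have h10 : (A + 1) / (L:ℝ) ^ (n + 1) = A / L ^ (n + 1) + 1 / L ^ (n + 1) := by ring
      linarith
    calc η' / (L:ℝ) ^ (n + 1) ≤ 1 / L ^ (n + 1) := by gcongr; linarith
      _ ≤ |(Φ x).2 a - (Φ y).2 a| := h8
      _ = dist ((Φ x).2 a) ((Φ y).2 a) := (Real.dist_eq _ _).symm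
      _ ≤ dist (Φ x).2 (Φ y).2 := dist_le_pi_dist _ _ a
      _ ≤ dist (Φ x) (Φ y) := le_max_right _ _
  · -- the heights differ
    have h1 : 2 / (L:ℝ) ^ (n + 1) ≤ |(dg x n - dg y n) / L ^ (n + 1)| := by
      rw [abs_div, abs_of_pos hLn]
      refine div_le_div_of_nonneg_right ?_ hLn.le
      have h2 : ((eqv (x n)).2 : ℤ) - ((eqv (y n)).2 : ℤ) ≠ 0 := by
        intro h
        exact hcase (Fin.ext (by omega))
      have h3 := Int.one_le_abs h2
      have h4 : (1:ℝ) ≤ |((eqv (x n)).2 : ℝ) - ((eqv (y n)).2 : ℝ)| := by exact_mod_cast h3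
      simp only [dg]
      rw [← mul_sub, abs_mul, abs_two]
      linarith
    have h2 : 1 / (L:ℝ) ^ (n + 1) ≤ |ser L (dg x) - ser L (dg y)| := by
      have h5 : |(dg x n - dg y n) / L ^ (n + 1)| ≤ |ser L (dg x) - ser L (dg y)| +
          |ser L (dg x) - ser L (dg y) - (dg x n - dg y n) / L ^ (n + 1)| := by
        have := abs_sub (ser L (dg x) - ser L (dg y))
          (ser L (dg x) - ser L (dg y) - (dg x n - dg y n) / L ^ (n + 1))
        rwa [sub_sub_cancel] at this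
      have h7 : 1 / (L:ℝ) ^ (n + 1) = 2 / L ^ (n + 1) - 1 / L ^ (n + 1) := by ring
      rw [h7]
      linarith
    calc η' / (L:ℝ) ^ (n + 1) = η' * (1 / L ^ (n + 1)) := by ring
      _ ≤ η' * |ser L (dg x) - ser L (dg y)| := mul_le_mul_of_nonneg_left h2 hη'0.le
      _ = |τ x - τ y| := by rw [hττ, abs_mul, abs_of_pos hη'0]
      _ = dist (Φ x).1 (Φ y).1 := (Real.dist_eq _ _).symm
      _ ≤ dist (Φ x) (Φ y) := le_max_left _ _

end Pool.Agent.N269.AK
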