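import Pool.Agent.N269.AK.Weight

set_option autoImplicit false

/-!
# Unions of lines over `ℤ/N`: arbitrary sets of directions

`Kk R d C`: for every set `B` of directions the union of one line in each of the directions
`(1, b)`, `b ∈ B`, has at least `|R| |B| / C` points.
-/

open Finset

namespace Pool.Agent.N269.AK

/-- The union of lines with directions `(1, b)`, `b ∈ B`, has at least `|R| |B| / C` points. -/
def Kk (R : Type*) [CommRing R] [Fintype R] [DecidableEq R] (d C : ℕ) : Prop :=
  ∀ (B : Finset (Fin d → R)) (x : (Fin d → R) → (Fin d → R)),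
    Fintype.card R * B.card ≤ C * (lineSet B x).card

/-- The weights have a large sum. -/
theorem wt_sum {p k d : ℕ} [hp : Fact p.Prime] (hk : 1 ≤ k) :
    p ^ k * (p ^ k) ^ d ≤
      2 * (2 * (d + 1) * k) ^ d * ∑ b : Fin d → ZMod (p ^ k), wt (p ^ k) k b := by
  classical
  set q := p ^ k with hq
  have hq2 : 2 ≤ q := by
    rw [hq]
    calc 2 ≤ p := hp.out.two_le
      _ = p ^ 1 := (pow_one p).symm
      _ ≤ p ^ k := Nat.pow_le_pow_right hp.out.pos hk
  have : NeZero q := ⟨by omega⟩
  set v := 2 * (d + 1) * k with hv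
  have hv2 : 2 ≤ v := by rw [hv]; nlinarith
  set u := q / v + 1 with hu
  have huq : u ≤ q := by
    have : q / v ≤ q / 2 := Nat.div_le_div_left hv2 (by norm_num)
    omega
  have hvu : q ≤ v * u := by
    have := Nat.div_add_mod q v
    have := Nat.mod_lt q (show 0 < v by omega)
    rw [hu]; nlinarith
  set box : Finset (Fin d → ZMod q) :=
    Fintype.piFinset (fun _ => univ.filter fun a : ZMod q => a.val < u) with hbox
  have hfc : (univ.filter fun a : ZMod q => a.val < u).card = u := by
    have h1 : (univ.filter fun a : ZMod q => a.val < u) =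
        (range u).image (fun n : ℕ => (n : ZMod q)) := by
      ext a
      simp only [mem_filter, mem_univ, true_and, mem_image, mem_range]
      constructor
      · intro h; exact ⟨a.val, h, ZMod.natCast_zmod_val a⟩
      · rintro ⟨n, hn, rfl⟩
        rw [ZMod.val_natCast]
        exact (Nat.mod_le _ _).trans_lt hn
    rw [h1, card_image_of_injOn, card_range]
    intro a ha b hb hab
    simp only [coe_range, Set.mem_Iio] at ha hb
    have h2 := congrArg ZMod.val hab
    simp only [ZMod.val_natCast] at h2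
    rwa [Nat.mod_eq_of_lt (by omega), Nat.mod_eq_of_lt (by omega)] at h2
  have hboxc : box.card = u ^ d := by
    rw [hbox, Fintype.card_piFinset]
    simp [hfc]
  have hw : ∀ b ∈ box, q ≤ 2 * wt q k b := by
    intro b hb
    rw [hbox, Fintype.mem_piFinset] at hb
    have h1 : ∑ a, (b a).val ≤ d * (q / v) := by
      calc ∑ a, (b a).val ≤ ∑ _a : Fin d, (q / v) := by
            refine sum_le_sum fun a _ => ?_
            have := hb a
            rw [mem_filter] at this
            omega
        _ = d * (q / v) := by simp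
    have h2 : 2 * (k * ∑ a, (b a).val) ≤ q := by
      calc 2 * (k * ∑ a, (b a).val) ≤ 2 * (k * (d * (q / v))) := by gcongr
        _ = (2 * d * k) * (q / v) := by ring
        _ ≤ v * (q / v) := Nat.mul_le_mul_right _ (by rw [hv]; nlinarith)
        _ ≤ q := Nat.mul_div_le _ _
    unfold wt
    omega
  have h3 : q * u ^ d ≤ 2 * ∑ b : Fin d → ZMod q, wt q k b := by
    calc q * u ^ d = ∑ _b ∈ box, q := by rw [sum_const, hboxc, smul_eq_mul, mul_comm]
      _ ≤ ∑ b ∈ box, 2 * wt q k b := sum_le_sum hw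
      _ = 2 * ∑ b ∈ box, wt q k b := by rw [mul_sum]
      _ ≤ 2 * ∑ b : Fin d → ZMod q, wt q k b :=
          Nat.mul_le_mul_left _ (sum_le_sum_of_subset (subset_univ _))
  calc q * q ^ d ≤ q * (v * u) ^ d := by gcongr
    _ = v ^ d * (q * u ^ d) := by rw [mul_pow]; ring
    _ ≤ v ^ d * (2 * ∑ b : Fin d → ZMod q, wt q k b) := Nat.mul_le_mul_left _ h3
    _ = _ := by ring

/-- Translating the directions does not change the number of points. -/
theorem lineSet_shift {R : Type*} [CommRing R] [Fintype R] [DecidableEq R] {d : ℕ}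
    (B : Finset (Fin d → R)) (x : (Fin d → R) → (Fin d → R)) (c : Fin d → R) :
    (lineSet (B.image (fun b => b + c)) (fun b => x (b - c))).card = (lineSet B x).card := by
  have h1 : lineSet (B.image (fun b => b + c)) (fun b => x (b - c)) =
      (lineSet B x).image (fun z => (z.1, z.2 + z.1 • c)) := by
    ext ⟨t, y⟩
    simp only [lineSet, mem_image, mem_product, mem_univ, and_true, Prod.mk.injEq, Prod.exists]
    constructor
    · rintro ⟨b', t', ⟨b, hb, rfl⟩, rfl, rfl⟩
      refine ⟨t', x b + t' • b, ⟨b, t', hb, rfl, rfl⟩, rfl, ?_⟩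
      simp [add_assoc]
    · rintro ⟨t', y', ⟨b, t'', hb, rfl, rfl⟩, rfl, rfl⟩
      refine ⟨b + c, t'', ⟨b, hb, rfl⟩, rfl, ?_⟩
      simp [add_assoc]
  rw [h1, card_image_of_injective]
  rintro ⟨t, y⟩ ⟨t', y'⟩ h
  simp only [Prod.mk.injEq] at h
  obtain ⟨rfl, h2⟩ := h
  simpa using h2

theorem kk_prime_pow (p k d : ℕ) [hp : Fact p.Prime] (hk : 1 ≤ k) :
    Kk (ZMod (p ^ k)) d (2 * (2 * (d + 1) * k) ^ d) := by
  classical
  intro B x
  have hq0 : 0 < p ^ k := pow_pos hp.out.pos k
  have h1 : ∀ c : Fin d → ZMod (p ^ k), ∑ b ∈ B, wt (p ^ k) k (b + c) ≤ (lineSet B x).card := by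
    intro c
    rw [← lineSet_shift B x c]
    refine le_trans (le_of_eq ?_) (weighted hk _ _)
    rw [sum_image]
    intro a _ b _ h
    exact add_right_cancel h
  have h2 : ∑ c : Fin d → ZMod (p ^ k), ∑ b ∈ B, wt (p ^ k) k (b + c) =
      B.card * ∑ b : Fin d → ZMod (p ^ k), wt (p ^ k) k b := by
    rw [sum_comm, card_eq_sum_ones, sum_mul]
    refine sum_congr rfl fun b _ => ?_
    rw [one_mul]
    exact Fintype.sum_equiv (Equiv.addLeft b) _ _ (fun c => rfl)
  have h3 : B.card * ∑ b : Fin d → ZMod (p ^ k), wt (p ^ k) k b ≤ (p ^ k) ^ d * (lineSet B x).card := by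
    rw [← h2]
    calc _ ≤ ∑ _c : Fin d → ZMod (p ^ k), (lineSet B x).card := sum_le_sum fun c _ => h1 c
      _ = _ := by
        rw [sum_const, card_univ, Fintype.card_fun, ZMod.card, Fintype.card_fin, smul_eq_mul]
  rw [ZMod.card]
  have h4 := wt_sum (p := p) (d := d) hk
  have h5 : (p ^ k) ^ d * ((p ^ k) * B.card) ≤
      (p ^ k) ^ d * (2 * (2 * (d + 1) * k) ^ d * (lineSet B x).card) := by
    calc (p ^ k) ^ d * ((p ^ k) * B.card) = B.card * ((p ^ k) * (p ^ k) ^ d) := by ring
      _ ≤ B.card * (2 * (2 * (d + 1) * k) ^ d * ∑ b : Fin d → ZMod (p ^ k), wt (p ^ k) k b) :=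
          Nat.mul_le_mul_left _ h4
      _ = 2 * (2 * (d + 1) * k) ^ d * (B.card * ∑ b : Fin d → ZMod (p ^ k), wt (p ^ k) k b) := by ring
      _ ≤ 2 * (2 * (d + 1) * k) ^ d * ((p ^ k) ^ d * (lineSet B x).card) := Nat.mul_le_mul_left _ h3
      _ = _ := by ring
  exact Nat.le_of_mul_le_mul_left h5 (pow_pos hq0 d)

end Pool.Agent.N269.AK
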