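import Pool.Agent.N269.AK.Baire

set_option autoImplicit false

/-!
# Kakeya sets whose lines are chosen by a finite automaton: Euclidean form
-/

open Set Filter Topology
open scoped ENNReal

namespace Pool.Agent.N269.AK

/-- The point of `ℝ^(d+1)` with height `t` and remaining coordinates `y`. -/
noncomputable def pt {d : ℕ} (t : ℝ) (y : Fin d → ℝ) : EuclideanSpace ℝ (Fin (d + 1)) :=
  WithLp.toLp 2 (Fin.cons t y)

theorem pt_anti {d : ℕ} {r : ℝ} (hr : 0 < r) :
    AntilipschitzWith (Real.toNNReal r)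
      (fun z : ℝ × (Fin d → ℝ) => pt (z.1 / r) (fun a => z.2 a / r)) := by
  refine AntilipschitzWith.of_le_mul_dist fun z z' => ?_
  rw [Real.coe_toNNReal _ hr.le]
  set g : ℝ × (Fin d → ℝ) → EuclideanSpace ℝ (Fin (d + 1)) :=
    fun z => pt (z.1 / r) (fun a => z.2 a / r) with hg
  have hi : ∀ i, |g z i - g z' i| ≤ dist (g z) (g z') := by
    intro i
    rw [dist_eq_norm]
    have := PiLp.norm_apply_le (g z - g z') i
    rwa [PiLp.sub_apply, Real.norm_eq_abs] at this
  rw [Prod.dist_eq]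
  refine max_le ?_ ?_
  · have h1 := hi 0
    have h2 : g z 0 - g z' 0 = (z.1 - z'.1) / r := by simp [hg, pt]; ring
    rw [h2, abs_div, abs_of_pos hr, div_le_iff₀ hr] at h1
    rw [Real.dist_eq, mul_comm]
    exact h1
  · refine (dist_pi_le_iff (by positivity)).2 fun a => ?_
    have h1 := hi a.succ
    have h2 : g z a.succ - g z' a.succ = (z.2 a - z'.2 a) / r := by simp [hg, pt]; ring
    rw [h2, abs_div, abs_of_pos hr, div_le_iff₀ hr] at h1
    rw [Real.dist_eq, mul_comm]
    exact h1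

theorem pt_cont {d : ℕ} (r : ℝ) :
    Continuous (fun z : ℝ × (Fin d → ℝ) => pt (z.1 / r) (fun a => z.2 a / r)) := by
  unfold pt
  refine (PiLp.continuous_toLp 2 _).comp ?_
  refine continuous_pi fun i => ?_
  refine Fin.cases ?_ (fun a => ?_) i
  · simpa using continuous_fst.div_const r
  · have h1 : Continuous fun z : ℝ × (Fin d → ℝ) => z.2 a := (continuous_apply a).comp continuous_snd
    simpa using h1.div_const r

/-- Common denominator of finitely many rational numbers. -/
theorem exists_den {ι : Type*} [Fintype ι] (f : ι → ℚ) :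
    ∃ (r : ℕ) (g : ι → ℤ), 0 < r ∧ ∀ i, (g i : ℝ) = r * (f i : ℝ) := by
  classical
  refine ⟨∏ i, (f i).den, fun i => (∏ j ∈ Finset.univ.erase i, ((f j).den : ℤ)) * (f i).num,
    Finset.prod_pos fun i _ => (f i).pos, fun i => ?_⟩
  rw [← Finset.mul_prod_erase _ _ (Finset.mem_univ i)]
  have h1 : (((f i).den : ℕ) : ℝ) * (f i : ℝ) = (f i).num := by
    have h2 := Rat.den_mul_eq_num (f i)
    exact_mod_cast h2
  push_cast
  rw [mul_comm (((f i).den : ℕ) : ℝ) _, mul_assoc, h1]

theorem slo_digits {d b : ℕ} (Y : ℕ → Fin d → Fin b) (a : Fin d) :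
    slo (b:ℝ) (fun (w : Fin d → Fin b) a => ((w a : ℕ) : ℤ)) Y a =
      Real.ofDigits (fun n => Y n a) := by
  unfold slo ser Real.ofDigits
  refine tsum_congr fun j => ?_
  simp [Real.ofDigitsTerm, div_eq_mul_inv]

/-- The exceptional sequences. -/
def exc (d b : ℕ) (x : ℕ × Fin d) : Set (ℕ → Fin d → Fin b) :=
  {Y | ∀ j, x.1 ≤ j → (Y j x.2 : ℕ) + 1 = b}

theorem exc_closed (d b : ℕ) (x : ℕ × Fin d) : IsClosed (exc d b x) := by
  have h1 : exc d b x = ⋂ (j : ℕ) (_ : x.1 ≤ j),
      (fun Y : ℕ → Fin d → Fin b => (Y j x.2 : ℕ) + 1) ⁻¹' {b} := by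
    ext Y; simp [exc]
  rw [h1]
  refine isClosed_iInter fun j => isClosed_iInter fun _ => ?_
  refine IsClosed.preimage ?_ isClosed_singleton
  have h2 : Continuous (fun w : Fin d → Fin b => (w x.2 : ℕ) + 1) := continuous_of_discreteTopology
  exact h2.comp (continuous_apply j)

theorem exc_interior (d b : ℕ) (hb : 2 ≤ b) (x : ℕ × Fin d) : interior (exc d b x) = ∅ := by
  rw [eq_empty_iff_forall_notMem]
  intro Y₀ hY₀
  obtain ⟨U, ⟨Z, n, rfl⟩, hZ, hU⟩ :=
    (PiNat.isTopologicalBasis_cylinders (fun _ : ℕ => (Fin d → Fin b))).exists_subset_of_mem_open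
      hY₀ isOpen_interior
  have h3 : cat n Z (fun _ _ => ⟨0, by omega⟩) ∈ PiNat.cylinder Z n := by
    rw [PiNat.mem_cylinder_iff]
    intro j hj
    exact cat_lt Z _ hj
  have h4 := interior_subset (hU h3)
  have h5 := h4 (n + x.1) (by omega)
  rw [cat_add] at h5
  simp at h5
  omega

/-- **Automatic selections.** -/
theorem main {d b : ℕ} [NeZero b] (hb : 2 ≤ b) {c : ℕ} (q₀ : Fin c)
    (next : Fin c → (Fin d → Fin b) → Fin c) (out : Fin c → (Fin d → Fin b) → Fin d → ℚ)
    (K : Set (EuclideanSpace ℝ (Fin (d + 1)))) (hK : IsClosed K)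
    (h : ∀ v : Fin d → ℝ, (∀ i, v i ∈ Ico (0:ℝ) 1) → ∃ t₁ t₂ : ℝ, t₁ < t₂ ∧ ∀ t ∈ Icc t₁ t₂,
      pt t (fun i => (∑' n, (out (st next q₀ (fun n i => Real.digits (v i) b n) n)
        (fun i => Real.digits (v i) b n) i : ℝ) / (b:ℝ) ^ (n + 1)) + t * v i) ∈ K) :
    dimH K = (d + 1 : ℕ) := by
  have hb1 : (1:ℝ) < b := by exact_mod_cast (by omega : 1 < b)
  refine le_antisymm ?_ ?_
  · have h1 := dimH_mono (subset_univ K)
    rw [Real.dimH_univ_eq_finrank] at h1
    simpa using h1
  obtain ⟨r, g, hr, hg⟩ := exists_den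
    (fun x : Fin c × (Fin d → Fin b) × Fin d => out x.1 x.2.1 x.2.2)
  have hr0 : (0:ℝ) < r := by exact_mod_cast hr
  let α : Fin c → (Fin d → Fin b) → Fin d → ℤ := fun q w i => g (q, w, i)
  let dig : (Fin d → Fin b) → Fin d → ℤ := fun w a => ((w a : ℕ) : ℤ)
  have hdig : ∀ w w' : Fin d → Fin b, (∀ a, (b:ℤ) ∣ dig w a - dig w' a) → w = w' := by
    intro w w' hw
    funext a
    apply Fin.ext
    have h1 := hw a
    simp only [dig] at h1
    have h2 : ((w a : ℕ) : ℤ) < b := by exact_mod_cast (w a).2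
    have h3 : ((w' a : ℕ) : ℤ) < b := by exact_mod_cast (w' a).2
    have h4 := Int.emod_emod_of_dvd ((w a : ℕ) : ℤ) (dvd_refl (b:ℤ))
    have h5 : ((w a : ℕ) : ℤ) % b = ((w' a : ℕ) : ℤ) % b := (Int.emod_emod_of_dvd _ (dvd_refl _)).symm.trans
      (by rw [Int.emod_emod_of_dvd _ (dvd_refl _)]; exact (Int.emod_eq_emod_iff_emod_sub_eq_zero.2
        (Int.emod_eq_zero_of_dvd h1)))
    rw [Int.emod_eq_of_lt (by positivity) h2, Int.emod_eq_of_lt (by positivity) h3] at h5
    exact_mod_cast h5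
  set G : ℝ × (Fin d → ℝ) → EuclideanSpace ℝ (Fin (d + 1)) :=
    fun z => pt (z.1 / r) (fun a => z.2 a / r) with hG
  have hclosed : IsClosed (G ⁻¹' K) := hK.preimage (pt_cont (r:ℝ))
  have h1 := aut_closed (Q := Fin c) (ι := Fin d → Fin b) (d := d) (M := b) hb hdig next α q₀
    (exc d b) (exc_closed d b) (exc_interior d b hb) (G ⁻¹' K) hclosed (fun Y hY => by
      have hY' : ∀ (a : Fin d) (k : ℕ), ∃ j, k ≤ j ∧ (Y j a : ℕ) + 1 < b := by
        intro a k
        have h2 := hY (k, a)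
        simp only [exc, mem_ofPred_eq, not_forall] at h2
        obtain ⟨j, hj, h3⟩ := h2
        refine ⟨j, hj, ?_⟩
        have := (Y j a).2
        omega
      have hdg : ∀ a : Fin d, Real.ofDigits (fun n => Y n a) ∈ Ico (0:ℝ) 1 ∧
          Real.digits (Real.ofDigits (fun n => Y n a)) b = (fun n => Y n a) := fun a =>
        digits_ofDigits hb (fun n => Y n a) (hY' a)
      obtain ⟨t₁, t₂, h12, ht⟩ := h (fun a => Real.ofDigits (fun n => Y n a)) (fun a => (hdg a).1)
      have hYeq : (fun (n : ℕ) (i : Fin d) => Real.digits (Real.ofDigits (fun n => Y n i)) b n) =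
          Y := by
        funext n i
        rw [(hdg i).2]
      refine ⟨r * t₁, r * t₂, mul_lt_mul_of_pos_left h12 hr0, fun τ hτ => ?_⟩
      have h3 := ht (τ / r) ⟨by rw [le_div_iff₀ hr0]; linarith [hτ.1],
        by rw [div_le_iff₀ hr0]; linarith [hτ.2]⟩
      rw [mem_preimage, hG]
      convert h3 using 2
      funext a
      simp only
      rw [hYeq, slo_digits, add_div]
      congr 1
      · unfold pos ser
        rw [div_eq_mul_inv, ← tsum_mul_right]
        congr 1
        funext n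
        have h4 : (fun i => Real.digits (Real.ofDigits (fun n => Y n i)) b n) = Y n :=
          congrFun hYeq n
        rw [h4]
        unfold outs
        simp only [α]
        rw [hg]
        field_simp
      · ring)
  have h2 : Real.log (Nat.card (Fin d → Fin b)) / Real.log b = d := by
    rw [Nat.card_eq_fintype_card, Fintype.card_fun, Fintype.card_fin, Fintype.card_fin]
    push_cast
    rw [Real.log_pow, mul_div_cancel_right₀]
    exact (Real.log_pos hb1).ne'
  rw [h2] at h1
  have h3 := (pt_anti (d := d) hr0).dimH_preimage_le K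
  refine le_trans (le_of_eq ?_) (h1.trans h3)
  rw [add_comm (1:ℝ), ENNReal.ofReal_add (by positivity) (by norm_num)]
  simp

end Pool.Agent.N269.AK
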