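import Mathlib

set_option autoImplicit false

/-!
# Lines in `(ℤ/p^k)^(d+1)`: the triangular basis

The basis functions `(y - 1)^e ∏_a ∏_{l < b_a} (z_a - y^l)`, their values on the curves
`z_a = y^(c_a)`, and the order of vanishing at `y = 1` of the diagonal values.
-/

open Polynomial Finset

namespace Pool.Agent.N269.AK

/-- The basis function with indices `b`, `e`. -/
def bas {A : Type*} [CommRing A] {d : ℕ} (b : Fin d → ℕ) (e : ℕ) (y : A) (z : Fin d → A) : A :=
  (y - 1) ^ e * ∏ a, ∏ l ∈ range (b a), (z a - y ^ l)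

theorem map_bas {A A' : Type*} [CommRing A] [CommRing A'] (f : A →+* A') {d : ℕ}
    (b : Fin d → ℕ) (e : ℕ) (y : A) (z : Fin d → A) :
    f (bas b e y z) = bas b e (f y) (fun a => f (z a)) := by
  simp [bas, map_prod]

theorem bas_zero {A : Type*} [CommRing A] {d : ℕ} (b c : Fin d → ℕ) (e : ℕ) (y : A)
    (h : ∃ a, c a < b a) : bas b e y (fun a => y ^ c a) = 0 := by
  obtain ⟨a, ha⟩ := h
  unfold bas
  have h1 : ∏ l ∈ range (b a), (y ^ c a - y ^ l) = 0 :=
    prod_eq_zero (mem_range.2 ha) (sub_self _)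
  have h2 : ∏ a, ∏ l ∈ range (b a), (y ^ c a - y ^ l) = 0 := prod_eq_zero (mem_univ a) h1
  rw [h2, mul_zero]

section rm
variable {F : Type*} [Field F]

theorem rm_mul {f g : F[X]} (hf : f ≠ 0) (hg : g ≠ 0) :
    (f * g).rootMultiplicity 1 = f.rootMultiplicity 1 + g.rootMultiplicity 1 :=
  rootMultiplicity_mul (mul_ne_zero hf hg)

theorem rm_pow' {f : F[X]} (hf : f ≠ 0) (n : ℕ) :
    (f ^ n).rootMultiplicity 1 = n * f.rootMultiplicity 1 := by
  induction n with
  | zero => simp
  | succ n ih => rw [pow_succ, rm_mul (pow_ne_zero _ hf) hf, ih]; ring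

theorem rm_prod {ι : Type*} (s : Finset ι) (f : ι → F[X]) (hf : ∀ i ∈ s, f i ≠ 0) :
    (∏ i ∈ s, f i).rootMultiplicity 1 = ∑ i ∈ s, (f i).rootMultiplicity 1 := by
  classical
  induction s using Finset.induction_on with
  | empty => simp
  | insert a s ha ih =>
    rw [prod_insert ha, sum_insert ha, rm_mul (hf a (mem_insert_self _ _))
      (prod_ne_zero_iff.2 fun i hi => hf i (mem_insert_of_mem hi)),
      ih fun i hi => hf i (mem_insert_of_mem hi)]

end rm

theorem xpow_sub_one_ne {F : Type*} [Field F] {m : ℕ} (hm : m ≠ 0) : (X ^ m - 1 : F[X]) ≠ 0 := by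
  have := X_pow_sub_C_ne_zero (R := F) (Nat.pos_of_ne_zero hm) 1
  simpa using this

section
variable {p : ℕ} [hp : Fact p.Prime]

/-- `X ^ i - 1` over `ZMod p` has a root of order at most `p ^ v` at `1`, where `v = v_p(i)`. -/
theorem rm_pow {i : ℕ} (hi : i ≠ 0) :
    (X ^ i - 1 : (ZMod p)[X]).rootMultiplicity 1 ≤ p ^ (padicValNat p i) := by
  obtain ⟨v, m, hm, rfl⟩ : ∃ v m : ℕ, ¬ p ∣ m ∧ i = p ^ v * m :=
    Nat.exists_eq_pow_mul_and_not_dvd hi p hp.out.ne_one
  have hm0 : m ≠ 0 := by rintro rfl; simp at hm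
  have hv : padicValNat p (p ^ v * m) = v := by
    rw [padicValNat.mul (pow_ne_zero _ hp.out.ne_zero) hm0, padicValNat.prime_pow,
      padicValNat.eq_zero_of_not_dvd hm, add_zero]
  rw [hv]
  have h1 : (X ^ (p ^ v * m) - 1 : (ZMod p)[X]) = (X ^ m - 1) ^ (p ^ v) := by
    rw [sub_pow_char_pow, one_pow, ← pow_mul, mul_comm]
  have hne : (X ^ m - 1 : (ZMod p)[X]) ≠ 0 := xpow_sub_one_ne hm0
  have h2 : (X ^ m - 1 : (ZMod p)[X]).rootMultiplicity 1 ≤ 1 := by
    by_contra hcon
    push Not at hcon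
    have h3 : 1 < (X ^ m - 1 : (ZMod p)[X]).rootMultiplicity 1 := hcon
    have h4 := (one_lt_rootMultiplicity_iff_isRoot hne).1 h3
    have h5 := h4.2
    simp only [derivative_sub, derivative_X_pow, derivative_one, sub_zero, IsRoot.def,
      eval_mul, eval_pow, eval_X, one_pow, mul_one, eval_C] at h5
    rw [ZMod.natCast_eq_zero_iff] at h5
    exact hm h5
  rw [h1, rm_pow' hne]
  calc p ^ v * _ ≤ p ^ v * 1 := Nat.mul_le_mul_left _ h2
    _ = _ := mul_one _

theorem pow_val_le {k i : ℕ} (hi : 0 < i) (hik : i < p ^ k) :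
    p ^ (padicValNat p i) ≤ ∑ v ∈ range k, if p ^ v ∣ i then p ^ v else 0 := by
  have h1 : padicValNat p i < k := by
    have h2 : p ^ (padicValNat p i) ≤ i := Nat.le_of_dvd hi pow_padicValNat_dvd
    exact (Nat.pow_lt_pow_iff_right hp.out.one_lt).1 (h2.trans_lt hik)
  refine le_trans ?_ (single_le_sum (f := fun v => if p ^ v ∣ i then p ^ v else 0)
    (fun _ _ => Nat.zero_le _) (mem_range.2 h1))

  rw [if_pos pow_padicValNat_dvd]

theorem sum_pow_val_le {k j : ℕ} (hj : j < p ^ k) :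
    ∑ l ∈ range j, p ^ (padicValNat p (j - l)) ≤ k * j := by
  have h1 : ∑ l ∈ range j, p ^ (padicValNat p (j - l)) ≤
      ∑ l ∈ range j, ∑ v ∈ range k, if p ^ v ∣ j - l then p ^ v else 0 := by
    refine sum_le_sum fun l hl => pow_val_le (by have := mem_range.1 hl; omega)
      (by have := mem_range.1 hl; omega)
  refine h1.trans ?_
  rw [sum_comm]
  have h2 : ∀ v ∈ range k, ∑ l ∈ range j, (if p ^ v ∣ j - l then p ^ v else 0) ≤ j := by
    intro v _
    rw [← sum_filter, sum_const, smul_eq_mul]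
    have h3 : ((range j).filter fun l => p ^ v ∣ j - l).card ≤ j / p ^ v := by
      have h4 : ((range j).filter fun l => p ^ v ∣ j - l).card ≤
          ((Ioc 0 j).filter fun i => p ^ v ∣ i).card := by
        refine card_le_card_of_injOn (fun l => j - l) ?_ ?_
        · intro l hl
          simp only [coe_filter, mem_range, Set.mem_ofPred_eq] at hl
          simp only [coe_filter, mem_Ioc, Set.mem_ofPred_eq]
          exact ⟨by omega, hl.2⟩
        · intro l hl l' hl' h
          simp only [coe_filter, mem_range, Set.mem_ofPred_eq] at hl hl' h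
          omega
      rw [Nat.Ioc_filter_dvd_card_eq_div] at h4
      exact h4
    calc _ ≤ j / p ^ v * p ^ v := Nat.mul_le_mul_right _ h3
      _ ≤ j := Nat.div_mul_le_self _ _
  calc _ ≤ ∑ _v ∈ range k, j := sum_le_sum h2
    _ = k * j := by rw [sum_const, card_range, smul_eq_mul]

theorem diag_ne (j : ℕ) : (∏ l ∈ range j, (X ^ j - X ^ l) : (ZMod p)[X]) ≠ 0 := by
  rw [prod_ne_zero_iff]
  intro l hl
  have hl' := mem_range.1 hl
  have h1 : (X ^ j - X ^ l : (ZMod p)[X]) = X ^ l * (X ^ (j - l) - 1) := by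
    rw [mul_sub, ← pow_add, mul_one]
    congr 2
    omega
  rw [h1]
  exact mul_ne_zero (pow_ne_zero _ X_ne_zero) (xpow_sub_one_ne (by omega))

theorem diag_rm {k j : ℕ} (hj : j < p ^ k) :
    (∏ l ∈ range j, (X ^ j - X ^ l) : (ZMod p)[X]).rootMultiplicity 1 ≤ k * j := by
  have h0 := diag_ne (p := p) j
  rw [prod_ne_zero_iff] at h0
  rw [rm_prod _ _ h0]
  refine (sum_le_sum fun l hl => ?_).trans (sum_pow_val_le hj)
  have hl' := mem_range.1 hl
  have h1 : (X ^ j - X ^ l : (ZMod p)[X]) = X ^ l * (X ^ (j - l) - 1) := by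
    rw [mul_sub, ← pow_add, mul_one]
    congr 2
    omega
  rw [h1, rm_mul (pow_ne_zero _ X_ne_zero) (xpow_sub_one_ne (by omega))]
  have h2 : (X ^ l : (ZMod p)[X]).rootMultiplicity 1 = 0 := by
    rw [rootMultiplicity_eq_zero]
    simp
  rw [h2, zero_add]
  exact rm_pow (by omega)

/-- **The triangular argument.**  A combination of the basis functions with indices `(b, e)`,
`e + k ∑ b < p ^ k`, which on all the curves `z = y ^ b` of its own indices vanishes to the order
`p ^ k` at `y = 1`, is zero. -/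
theorem triangular {d k : ℕ} (I : Finset ((Fin d → ℕ) × ℕ))
    (hI : ∀ x ∈ I, x.2 + k * ∑ a, x.1 a < p ^ k) (hk : 1 ≤ k) (c : (Fin d → ℕ) × ℕ → ZMod p)
    (h : ∀ x ∈ I, (X - 1 : (ZMod p)[X]) ^ (p ^ k) ∣
      ∑ y ∈ I, C (c y) * bas y.1 y.2 X (fun a => X ^ (x.1 a))) :
    ∀ x ∈ I, c x = 0 := by
  classical
  by_contra hcon
  push Not at hcon
  obtain ⟨x₀, hx₀, hcx₀⟩ := hcon
  obtain ⟨x, hx, hmin⟩ := exists_min_image (I.filter fun x => c x ≠ 0) (fun x => ∑ a, x.1 a)
    ⟨x₀, mem_filter.2 ⟨hx₀, hcx₀⟩⟩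
  rw [mem_filter] at hx
  obtain ⟨hxI, hcx⟩ := hx
  set b := x.1 with hb
  have hxI' : x.2 + k * ∑ a, b a < p ^ k := hI x hxI
  have hbk : ∀ a, b a < p ^ k := by
    intro a
    have h1 := hI x hxI
    have h2 : b a ≤ ∑ a, x.1 a := single_le_sum (f := fun a => x.1 a)
      (fun _ _ => Nat.zero_le _) (mem_univ a)
    nlinarith
  -- only the indices with the same `b` contribute
  have h1 : ∑ y ∈ I, C (c y) * bas y.1 y.2 (X : (ZMod p)[X]) (fun a => X ^ (b a)) =
      (∑ y ∈ I.filter (fun y => y.1 = b), C (c y) * (X - 1) ^ y.2) *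
        ∏ a, ∏ l ∈ range (b a), (X ^ (b a) - X ^ l) := by
    rw [← sum_filter_add_sum_filter_not I (fun y => y.1 = b), sum_mul]
    have h2 : ∑ y ∈ I.filter (fun y => ¬ y.1 = b),
        C (c y) * bas y.1 y.2 (X : (ZMod p)[X]) (fun a => X ^ (b a)) = 0 := by
      refine sum_eq_zero fun y hy => ?_
      rw [mem_filter] at hy
      by_cases hcy : c y = 0
      · rw [hcy, C_0, zero_mul]
      · have h3 := hmin y (mem_filter.2 ⟨hy.1, hcy⟩)
        have h4 : ∃ a, b a < y.1 a := by
          by_contra h5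
          push Not at h5
          have h6 : ∑ a, y.1 a = ∑ a, b a := le_antisymm (sum_le_sum fun a _ => h5 a) h3
          have h7 := (sum_eq_sum_iff_of_le fun a _ => h5 a).1 h6
          exact hy.2 (funext fun a => h7 a (mem_univ a))
        rw [bas_zero _ _ _ _ h4, mul_zero]
    rw [h2, add_zero]
    refine sum_congr rfl fun y hy => ?_
    rw [mem_filter] at hy
    unfold bas
    rw [hy.2]
    ring
  have h2 := h x hxI
  rw [← hb, h1] at h2
  set g : (ZMod p)[X] := ∑ y ∈ I.filter (fun y => y.1 = b), C (c y) * (X - 1) ^ y.2 with hg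
  set D : (ZMod p)[X] := ∏ a, ∏ l ∈ range (b a), (X ^ (b a) - X ^ l) with hD
  -- `g` is not zero: its expansion in powers of `X - 1`
  have hg1 : g.comp (X + 1) = ∑ y ∈ I.filter (fun y => y.1 = b), C (c y) * X ^ y.2 := by
    rw [hg, ← coe_compRingHom_apply, map_sum]
    refine sum_congr rfl fun y _ => ?_
    simp
  have hg2 : (g.comp (X + 1)).coeff x.2 = c x := by
    rw [hg1, finsetSum_coeff]
    have hxf : x ∈ I.filter (fun y => y.1 = b) := by
      rw [mem_filter]
      exact ⟨hxI, hb.symm⟩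
    rw [sum_eq_single_of_mem x hxf]
    · simp
    · intro y hy hyx
      rw [mem_filter] at hy
      have : y.2 ≠ x.2 := fun h => hyx (Prod.ext (hy.2.trans hb) h)
      simp [coeff_X_pow, this.symm]
  have hg0 : g ≠ 0 := by
    intro h0
    rw [h0, zero_comp, coeff_zero] at hg2
    exact hcx hg2.symm
  have hgdeg : g.natDegree + k * ∑ a, b a < p ^ k := by
    have h3 : g.natDegree < p ^ k - k * ∑ a, b a := by
      rw [Nat.lt_iff_le_pred (by omega)]
      refine natDegree_sum_le_of_forall_le _ _ fun y hy => ?_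
      rw [mem_filter] at hy
      refine (natDegree_C_mul_le _ _).trans ?_
      refine (natDegree_pow_le).trans ?_
      have h4 : (X - 1 : (ZMod p)[X]).natDegree = 1 := by
        have := natDegree_X_sub_C (1 : ZMod p)
        simpa using this
      rw [h4, mul_one]
      have h5 := hI y hy.1
      rw [hy.2] at h5
      show y.2 ≤ p ^ k - k * ∑ a, b a - 1
      omega
    omega
  have hD0 : D ≠ 0 := by
    rw [hD, prod_ne_zero_iff]
    exact fun a _ => diag_ne (b a)
  have hDrm : D.rootMultiplicity 1 ≤ k * ∑ a, b a := by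
    rw [hD, rm_prod _ _ (fun a _ => diag_ne (b a)), mul_sum]
    exact sum_le_sum fun a _ => diag_rm (hbk a)
  have hgrm : g.rootMultiplicity 1 ≤ g.natDegree := by
    rw [← count_roots]
    exact (Multiset.count_le_card _ _).trans (card_roots' g)
  have h3 : p ^ k ≤ (g * D).rootMultiplicity 1 := by
    rw [le_rootMultiplicity_iff (mul_ne_zero hg0 hD0)]
    simpa using h2
  rw [rm_mul hg0 hD0] at h3
  omega

end

end Pool.Agent.N269.AK
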