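import Pool.Agent.N269.AK.Kak

set_option autoImplicit false

/-!
# Unions of lines over `ℤ/N`: products of rings and powers of `M`
-/

open Finset

namespace Pool.Agent.N269.AK

/-- The inequality for a product of two rings. -/
theorem Kk.prod {R₁ R₂ : Type*} [CommRing R₁] [Fintype R₁] [DecidableEq R₁] [CommRing R₂]
    [Fintype R₂] [DecidableEq R₂] {d C₁ C₂ : ℕ} (h₁ : Kk R₁ d C₁) (h₂ : Kk R₂ d C₂) :
    Kk (R₁ × R₂) d (C₁ * C₂) := by
  classical
  intro B x
  set S := lineSet B x with hS
  -- the relation between a point of the second factor and a direction of the first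
  let P : R₂ × (Fin d → R₂) → (Fin d → R₁) → Prop := fun z b₁ =>
    ∃ b ∈ B, (fun a => (b a).1) = b₁ ∧ z.2 = (fun a => (x b a).2) + z.1 • (fun a => (b a).2)
  have hf : ∀ z : R₂ × (Fin d → R₂), Fintype.card R₁ * (univ.filter fun b₁ => P z b₁).card ≤
      C₁ * (S.filter fun s => ((s.1.2, fun a => (s.2 a).2) : R₂ × (Fin d → R₂)) = z).card := by
    intro z
    -- a choice of the direction
    have hch : ∀ b₁ : Fin d → R₁, ∃ b : Fin d → R₁ × R₂, P z b₁ → b ∈ B ∧
        (fun a => (b a).1) = b₁ ∧ z.2 = (fun a => (x b a).2) + z.1 • (fun a => (b a).2) := by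
      intro b₁
      by_cases h : P z b₁
      · obtain ⟨b, h1, h2, h3⟩ := h
        exact ⟨b, fun _ => ⟨h1, h2, h3⟩⟩
      · exact ⟨0, fun h' => absurd h' h⟩
    choose g hg using hch
    refine (h₁ (univ.filter fun b₁ => P z b₁) (fun b₁ a => (x (g b₁) a).1)).trans ?_
    refine Nat.mul_le_mul_left _ ?_
    refine card_le_card_of_injOn (fun w => ((w.1, z.1), fun a => (w.2 a, z.2 a))) ?_ ?_
    · intro w hw
      rw [mem_coe, lineSet, mem_image] at hw
      obtain ⟨⟨b₁, t⟩, hb, rfl⟩ := hw
      rw [mem_product, mem_filter] at hb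
      obtain ⟨h1, h2, h3⟩ := hg b₁ hb.1.2
      rw [mem_coe, mem_filter]
      refine ⟨?_, rfl⟩
      rw [hS, lineSet, mem_image]
      refine ⟨(g b₁, (t, z.1)), mem_product.2 ⟨h1, mem_univ _⟩, ?_⟩
      refine Prod.ext rfl ?_
      funext a
      refine Prod.ext ?_ ?_
      · have := congrFun h2 a
        simp [← this]
      · have := congrFun h3 a
        simp only [Pi.add_apply, Pi.smul_apply, smul_eq_mul] at this
        simp [this]
    · rintro ⟨t, y⟩ _ ⟨t', y'⟩ _ h
      simp only [Prod.mk.injEq, and_true] at h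
      obtain ⟨rfl, h2⟩ := h
      congr 1
      funext a
      exact (Prod.mk.inj (congrFun h2 a)).1
  have hg : ∀ b₁ : Fin d → R₁, Fintype.card R₂ * (B.filter fun b => (fun a => (b a).1) = b₁).card ≤
      C₂ * (univ.filter fun z => P z b₁).card := by
    intro b₁
    set B₂ : Finset (Fin d → R₂) :=
      (B.filter fun b => (fun a => (b a).1) = b₁).image (fun b a => (b a).2) with hB₂
    have hc : (B.filter fun b => (fun a => (b a).1) = b₁).card = B₂.card := by
      rw [hB₂, card_image_of_injOn]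
      intro b hb b' hb' h
      rw [mem_coe, mem_filter] at hb hb'
      funext a
      exact Prod.ext ((congrFun hb.2 a).trans (congrFun hb'.2 a).symm) (congrFun h a)
    rw [hc]
    refine (h₂ B₂ (fun b₂ a => (x (fun a => (b₁ a, b₂ a)) a).2)).trans ?_
    refine Nat.mul_le_mul_left _ (card_le_card ?_)
    rintro ⟨t, y⟩ hw
    rw [lineSet, mem_image] at hw
    obtain ⟨⟨b₂, t'⟩, hb, h⟩ := hw
    rw [mem_product] at hb
    simp only [Prod.mk.injEq] at h
    obtain ⟨rfl, rfl⟩ := h
    have hb1 := hb.1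
    rw [hB₂, mem_image] at hb1
    obtain ⟨b, hb2, hb3⟩ := hb1
    rw [mem_filter] at hb2
    have hbe : b = fun a => (b₁ a, b₂ a) := by
      funext a
      exact Prod.ext (congrFun hb2.2 a) (congrFun hb3 a)
    rw [mem_filter]
    refine ⟨mem_univ _, b, hb2.1, hb2.2, ?_⟩
    rw [hbe]
  have h1 : C₁ * S.card = ∑ z : R₂ × (Fin d → R₂), C₁ *
      (S.filter fun s => ((s.1.2, fun a => (s.2 a).2) : R₂ × (Fin d → R₂)) = z).card := by
    rw [← mul_sum]
    congr 1
    exact card_eq_sum_card_fiberwise (fun _ _ => mem_univ _)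
  have h2 : Fintype.card R₂ * B.card = ∑ b₁ : Fin d → R₁, Fintype.card R₂ *
      (B.filter fun b => (fun a => (b a).1) = b₁).card := by
    rw [← mul_sum]
    congr 1
    exact card_eq_sum_card_fiberwise (fun _ _ => mem_univ _)
  have h3 : ∑ z : R₂ × (Fin d → R₂), (univ.filter fun b₁ => P z b₁).card =
      ∑ b₁ : Fin d → R₁, (univ.filter fun z => P z b₁).card := by
    simp only [card_filter]
    exact sum_comm
  calc Fintype.card (R₁ × R₂) * B.card = Fintype.card R₁ * (Fintype.card R₂ * B.card) := by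
        rw [Fintype.card_prod, mul_assoc]
    _ ≤ Fintype.card R₁ * ∑ b₁ : Fin d → R₁, C₂ * (univ.filter fun z => P z b₁).card := by
        rw [h2]
        exact Nat.mul_le_mul_left _ (sum_le_sum fun b₁ _ => hg b₁)
    _ = C₂ * ∑ z : R₂ × (Fin d → R₂), Fintype.card R₁ * (univ.filter fun b₁ => P z b₁).card := by
        rw [← mul_sum, ← mul_sum, ← h3]; ring
    _ ≤ C₂ * (C₁ * S.card) := by
        rw [h1]
        exact Nat.mul_le_mul_left _ (sum_le_sum fun z _ => hf z)
    _ = C₁ * C₂ * S.card := by ring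

/-- The inequality is invariant under isomorphisms. -/
theorem Kk.equiv {R R' : Type*} [CommRing R] [Fintype R] [DecidableEq R] [CommRing R']
    [Fintype R'] [DecidableEq R'] {d C : ℕ} (e : R ≃+* R') (h : Kk R d C) : Kk R' d C := by
  classical
  intro B x
  have h1 := h (B.image fun b a => e.symm (b a)) (fun b a => e.symm (x (fun a => e (b a)) a))
  rw [card_image_of_injective] at h1
  · rw [Fintype.card_congr e.toEquiv] at h1
    refine h1.trans (Nat.mul_le_mul_left _ ?_)
    refine card_le_card_of_injOn (fun w => (e w.1, fun a => e (w.2 a))) ?_ ?_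
    · intro w hw
      rw [mem_coe, lineSet, mem_image] at hw
      obtain ⟨⟨b, t⟩, hb, rfl⟩ := hw
      rw [mem_product, mem_image] at hb
      obtain ⟨⟨b', hb', rfl⟩, -⟩ := hb
      rw [mem_coe, lineSet, mem_image]
      refine ⟨(b', e t), mem_product.2 ⟨hb', mem_univ _⟩, ?_⟩
      refine Prod.ext rfl ?_
      funext a
      simp
    · rintro ⟨t, y⟩ _ ⟨t', y'⟩ _ h
      simp only [Prod.mk.injEq, EmbeddingLike.apply_eq_iff_eq] at h
      obtain ⟨rfl, h2⟩ := h
      congr 1
      funext a
      exact e.injective (congrFun h2 a)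
  · intro b b' hbb
    funext a
    exact e.symm.injective (congrFun hbb a)

/-- The inequality for the trivial ring. -/
theorem Kk.subsingleton {R : Type*} [CommRing R] [Fintype R] [DecidableEq R] [Subsingleton R]
    (d : ℕ) : Kk R d 1 := by
  intro B x
  have h1 : Fintype.card R = 1 := Fintype.card_eq_one_iff.2 ⟨0, fun y => Subsingleton.elim _ _⟩
  rw [h1, one_mul, one_mul]
  rcases B.eq_empty_or_nonempty with h | ⟨b, hb⟩
  · simp [h]
  · have h2 : B.card ≤ 1 := card_le_one.2 fun a _ b _ => Subsingleton.elim _ _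
    have h3 : 1 ≤ (lineSet B x).card := card_pos.2 ⟨_, mem_lineSet hb 0⟩
    omega

/-- **Unions of lines over `ℤ/M^m`**: the loss is polynomial in `m`. -/
theorem kk_pow (d M : ℕ) (hM : M ≠ 0) : ∃ K D : ℕ, ∀ m : ℕ, 1 ≤ m → ∀ _ : NeZero (M ^ m),
    Kk (ZMod (M ^ m)) d (K * m ^ D) := by
  induction M using Nat.recOnPrimePow with
  | zero => exact absurd rfl hM
  | one =>
    refine ⟨1, 0, fun m hm _ => ?_⟩
    have : Subsingleton (ZMod (1 ^ m)) := by rw [one_pow]; infer_instance
    rw [pow_zero, mul_one]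
    exact Kk.subsingleton d
  | prime_pow_mul a p n hp hpa hn ih =>
    have ha : a ≠ 0 := by rintro rfl; exact hpa (dvd_zero p)
    obtain ⟨K, D, hKD⟩ := ih ha
    refine ⟨2 * (2 * (d + 1) * n) ^ d * K, d + D, fun m hm _ => ?_⟩
    have : Fact p.Prime := ⟨hp⟩
    have hn1 : 1 ≤ n * m := Nat.mul_pos hn hm
    have : NeZero (a ^ m) := ⟨pow_ne_zero _ ha⟩
    have h1 := kk_prime_pow p (n * m) d hn1
    have h2 := (hKD m hm inferInstance)
    have h3 := h1.prod h2
    have hcop : Nat.Coprime (p ^ (n * m)) (a ^ m) :=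
      Nat.Coprime.pow _ _ ((Nat.Prime.coprime_iff_not_dvd hp).2 hpa)
    have e := (ZMod.chineseRemainder hcop).symm
    have heq : p ^ (n * m) * a ^ m = (p ^ n * a) ^ m := by rw [mul_pow, ← pow_mul]
    have : NeZero (p ^ (n * m) * a ^ m) := ⟨by rw [heq]; exact NeZero.ne _⟩
    have h4 := Kk.equiv e h3
    have h5 := Kk.equiv (ZMod.ringEquivCongr heq) h4
    convert h5 using 1
    rw [pow_add, show 2 * (d + 1) * (n * m) = (2 * (d + 1) * n) * m by ring, mul_pow _ m d]
    ring

end Pool.Agent.N269.AK
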