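import Pool.Agent.N269.AK.Block

set_option autoImplicit false

/-!
# Self-similar families of lines: the dimension of the union
-/

open Set Filter Topology
open scoped ENNReal

namespace Pool.Agent.N269.AK

/-- Rational heights near every real number with a given residue modulo `M`. -/
theorem exists_height {M : ℕ} (hM : 2 ≤ M) (t₀ : ℤ) {x y : ℝ} (hxy : x < y) :
    ∃ (r : ℕ) (p : ℤ), 0 < r ∧ (M:ℤ) ∣ (r:ℤ) - 1 ∧ (M:ℤ) ∣ p - t₀ ∧ x < p / r ∧ (p:ℝ) / r < y := by
  have hM0 : (0:ℝ) < M := by positivity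
  obtain ⟨n, hn⟩ := exists_nat_gt (1 / (y - x))
  have hyx : 0 < y - x := by linarith
  have hn1 : 1 < (y - x) * n := by
    rw [div_lt_iff₀ hyx] at hn
    linarith
  set r : ℕ := M * n + 1 with hr
  have hr0 : (0:ℝ) < r := by rw [hr]; positivity
  have hrM : (M:ℝ) < (y - x) * r := by
    rw [hr]
    push_cast
    nlinarith
  set b : ℤ := ⌊(x * r - t₀) / M⌋ + 1 with hb
  have h1 : (x * r - t₀) / M < b := by
    rw [hb]; push_cast; exact Int.lt_floor_add_one _
  have h2 : (b:ℝ) ≤ (x * r - t₀) / M + 1 := by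
    rw [hb]; push_cast
    have := Int.floor_le ((x * r - t₀) / M)
    linarith
  refine ⟨r, t₀ + M * b, by omega, ⟨n, by rw [hr]; push_cast; ring⟩, ⟨b, by ring⟩, ?_, ?_⟩
  · rw [lt_div_iff₀ hr0]
    rw [div_lt_iff₀ hM0] at h1
    push_cast
    linarith
  · rw [div_lt_iff₀ hr0]
    have h3 : (b:ℝ) * M ≤ x * r - t₀ + M := by
      have := mul_le_mul_of_nonneg_right h2 hM0.le
      rwa [add_mul, div_mul_cancel₀ _ hM0.ne', one_mul] at this
    push_cast
    linarith

theorem sep_words {κ : Type} [Fintype κ] [Nonempty κ] {d M : ℕ} (hM : 2 ≤ M)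
    (P D : κ → Fin d → ℤ) (t₀ : ℤ)
    (hdist : ∀ v v', (∀ a, (M:ℤ) ∣ (P v a + t₀ * D v a) - (P v' a + t₀ * D v' a)) → v = v')
    (R : ℕ) (hR : 1 ≤ R) {x y : ℝ} (hxy : x < y) :
    ∃ t ∈ Ioo x y, ∃ ρ : ℕ, 1 ≤ ρ ∧ ∀ k, ∃ H : Finset (Fin k → κ),
      Fintype.card κ ^ k ≤ ρ ^ d * H.card ∧ ∀ h ∈ H, ∀ h' ∈ H, h ≠ h' → ∃ a, (R:ℝ) ≤
        |((hor M (fun j => P (ext h j)) k a : ℝ) + t * (hor M (fun j => D (ext h j)) k a : ℝ)) -
        ((hor M (fun j => P (ext h' j)) k a : ℝ) + t * (hor M (fun j => D (ext h' j)) k a : ℝ))| := by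
  classical
  obtain ⟨r, p, hr, hr1, hp1, hx, hy⟩ := exists_height hM t₀ hxy
  have hr0 : (0:ℝ) < r := by exact_mod_cast hr
  refine ⟨p / r, ⟨hx, hy⟩, R * r, Nat.mul_pos hR hr, fun k => ?_⟩
  have hρ : NeZero (R * r) := ⟨(Nat.mul_pos hR hr).ne'⟩
  let I : κ → Fin d → ℤ := fun v a => r * P v a + p * D v a
  have hI : ∀ v v', (∀ a, (M:ℤ) ∣ I v a - I v' a) → v = v' := by
    intro v v' h
    apply hdist
    intro a
    obtain ⟨c1, hc1⟩ := hr1
    obtain ⟨c2, hc2⟩ := hp1
    obtain ⟨c3, hc3⟩ := h a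
    refine ⟨c3 - c1 * (P v a - P v' a) - c2 * (D v a - D v' a), ?_⟩
    simp only [I] at hc3
    have e1 : (r:ℤ) = M * c1 + 1 := by linarith
    have e2 : p = M * c2 + t₀ := by linarith
    rw [e1, e2] at hc3
    linear_combination hc3
  let V : (Fin k → κ) → Fin d → ℤ := fun h => hor M (fun j => I (ext h j)) k
  have hV : ∀ h a, V h a = r * hor M (fun j => P (ext h j)) k a +
      p * hor M (fun j => D (ext h j)) k a := fun h a => by
    simp only [V, I]
    exact hor_lin M r p (fun j => P (ext h j)) (fun j => D (ext h j)) k a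
  have hVinj : ∀ h h', (∀ a, V h a = V h' a) → h = h' := by
    intro h h' hhh
    have h1 := hor_inj (by positivity) hI k (ext h) (ext h') (fun a => by
      have := hhh a
      simp only [V] at this
      rw [this, sub_self]; exact dvd_zero _)
    funext i
    rw [← ext_apply h i, ← ext_apply h' i]
    exact h1 i i.2
  let F : (Fin k → κ) → (Fin d → ZMod (R * r)) := fun h a => (V h a : ZMod (R * r))
  obtain ⟨z, hz⟩ : ∃ z : Fin d → ZMod (R * r), Fintype.card κ ^ k ≤
      (R * r) ^ d * (Finset.univ.filter fun h => F h = z).card := by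
    by_contra hcon
    push Not at hcon
    have h1 : Fintype.card κ ^ k = ∑ z : Fin d → ZMod (R * r),
        (Finset.univ.filter fun h => F h = z).card := by
      rw [← Finset.card_eq_sum_card_fiberwise (fun _ _ => Finset.mem_univ _), Finset.card_univ,
        Fintype.card_fun, Fintype.card_fin]
    have h2 : ∑ z : Fin d → ZMod (R * r), (R * r) ^ d *
        (Finset.univ.filter fun h => F h = z).card <
        ∑ _z : Fin d → ZMod (R * r), Fintype.card κ ^ k :=
      Finset.sum_lt_sum_of_nonempty Finset.univ_nonempty fun z _ => hcon z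
    rw [← Finset.mul_sum, ← h1, Finset.sum_const, Finset.card_univ, Fintype.card_fun, ZMod.card,
      Fintype.card_fin, smul_eq_mul] at h2
    omega
  refine ⟨Finset.univ.filter fun h => F h = z, hz, fun h hh h' hh' hne => ?_⟩
  rw [Finset.mem_filter] at hh hh'
  have h1 : ∃ a, V h a ≠ V h' a := by
    by_contra hcon
    push Not at hcon
    exact hne (hVinj h h' hcon)
  obtain ⟨a, ha⟩ := h1
  refine ⟨a, ?_⟩
  have h2 : ((R * r : ℕ) : ℤ) ∣ V h a - V h' a := by
    rw [← ZMod.intCast_zmod_eq_zero_iff_dvd, Int.cast_sub, sub_eq_zero]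
    exact (congrFun hh.2 a).trans (congrFun hh'.2 a).symm
  have h3 : ((R * r : ℕ) : ℤ) ≤ |V h a - V h' a| :=
    Int.le_of_dvd (abs_pos.2 (sub_ne_zero.2 ha)) ((dvd_abs _ _).2 h2)
  have h4 : ((R * r : ℕ) : ℝ) ≤ |(V h a : ℝ) - (V h' a : ℝ)| := by exact_mod_cast h3
  have h5 : ((hor M (fun j => P (ext h j)) k a : ℝ) +
      p / r * (hor M (fun j => D (ext h j)) k a : ℝ)) -
      ((hor M (fun j => P (ext h' j)) k a : ℝ) + p / r * (hor M (fun j => D (ext h' j)) k a : ℝ)) =
      ((V h a : ℝ) - (V h' a : ℝ)) / r := by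
    rw [hV, hV]
    push_cast
    field_simp
  rw [h5, abs_div, abs_of_pos hr0, le_div_iff₀ hr0]
  push_cast at h4
  exact h4

/-- **Self-similar families of lines.**  If the points at an integer height `t₀` of the lines given
by the digits are distinct modulo the base `M`, then over every interval of heights the union of the
lines has dimension at least `1 + log |κ| / log M`. -/
theorem self_similar {κ : Type} [Fintype κ] [Nonempty κ] {d M : ℕ} (hM : 2 ≤ M)
    (P D : κ → Fin d → ℤ) (t₀ : ℤ)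
    (hdist : ∀ v v', (∀ a, (M:ℤ) ∣ (P v a + t₀ * D v a) - (P v' a + t₀ * D v' a)) → v = v')
    {x y : ℝ} (hxy : x < y) :
    ENNReal.ofReal (1 + Real.log (Fintype.card κ) / Real.log M) ≤
      dimH (fam (M:ℝ) (fun v a => (P v a : ℝ)) (fun v a => (D v a : ℝ)) (Ioo x y)) := by
  classical
  have hM1 : (1:ℝ) < M := by exact_mod_cast (by omega : 1 < M)
  have hM2 : (2:ℝ) ≤ M := by exact_mod_cast hM
  have hlogM : 0 < Real.log M := Real.log_pos hM1
  have hκ : (1:ℝ) ≤ Fintype.card κ := by exact_mod_cast Fintype.card_pos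
  obtain ⟨K, hK⟩ : ∃ K : ℕ, ∀ (v : κ) (a : Fin d), |P v a| ≤ K ∧ |D v a| ≤ K := by
    obtain ⟨K, hK⟩ := (Set.finite_range fun x : κ × Fin d =>
      (|P x.1 x.2|).toNat + (|D x.1 x.2|).toNat).bddAbove
    refine ⟨K, fun v a => ?_⟩
    have := hK ⟨(v, a), rfl⟩
    simp only at this
    have h0 := abs_nonneg (P v a)
    have h1 := abs_nonneg (D v a)
    omega
  set T : ℝ := |x| + |y| with hT
  have hT0 : 0 ≤ T := by positivity
  have hTτ : ∀ τ ∈ Icc x y, |τ| ≤ T := by
    intro τ hτ
    rw [abs_le]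
    have h1 := neg_abs_le x
    have h2 := le_abs_self y
    have h3 := abs_nonneg x
    have h4 := abs_nonneg y
    constructor <;> [linarith [hτ.1]; linarith [hτ.2]]
  set A : ℝ := K * (1 + T) with hA
  have hA0 : 0 ≤ A := by positivity
  obtain ⟨R, hR⟩ := exists_nat_ge (4 * A + 2)
  have hR1 : 1 ≤ R := by
    have : (1:ℝ) ≤ R := by linarith
    exact_mod_cast this
  obtain ⟨t, ht, ρ, hρ, hsep⟩ := sep_words hM P D t₀ hdist R hR1 hxy
  have hρ1 : (1:ℝ) ≤ ρ := by exact_mod_cast hρ
  -- the bound for every `k`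
  have key : ∀ k : ℕ, 2 ≤ k → ENNReal.ofReal (1 + Real.log (Fintype.card κ) / Real.log M -
      (d * Real.log ρ + Real.log 4) / Real.log M * (1 / k)) ≤
      dimH (fam (M:ℝ) (fun v a => (P v a : ℝ)) (fun v a => (D v a : ℝ)) (Ioo x y)) := by
    intro k hk
    obtain ⟨H, hH, hHsep⟩ := hsep k
    have hkpos : (0:ℝ) < k := by positivity
    have hHpos : 0 < H.card := by
      by_contra hcon
      have h0 : H.card = 0 := by omega
      rw [h0, mul_zero] at hH
      have : 0 < Fintype.card κ ^ k := pow_pos Fintype.card_pos k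
      omega
    have : Nonempty H := (Finset.card_pos.1 hHpos).to_subtype
    set L : ℕ := M ^ k with hL
    have hL4 : 4 ≤ L := by
      calc 4 = 2 ^ 2 := by norm_num
        _ ≤ M ^ 2 := Nat.pow_le_pow_left hM 2
        _ ≤ M ^ k := Nat.pow_le_pow_right (by omega) hk
    have hLr : (L:ℝ) = (M:ℝ) ^ k := by rw [hL]; push_cast; rfl
    have hL4r : (4:ℝ) ≤ L := by exact_mod_cast hL4
    set η : ℝ := min ((y - t) / 2) (1 / (2 * A * L + 1)) with hη
    have hη0 : 0 < η := lt_min (by linarith [ht.2]) (by positivity)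
    have hη1 : η ≤ (y - t) / 2 := min_le_left _ _
    have hη2 : η * (2 * A * L + 1) ≤ 1 := by
      have := min_le_right ((y - t) / 2) (1 / (2 * A * L + 1))
      rw [← hη, le_div_iff₀ (by positivity)] at this
      exact this
    have hsub : Icc t (t + η) ⊆ Ioo x y := by
      intro τ hτ
      exact ⟨by linarith [hτ.1, ht.1], by linarith [hτ.2, ht.2]⟩
    have hPb : ∀ (h : H) a, |(hor M (fun j => P (ext h.1 j)) k a : ℝ)| ≤ K * L := by
      intro h a
      have := hor_abs_le hM (f := fun j => P (ext h.1 j)) (a := a) (K := K)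
        (fun j => (hK _ _).1) k
      have h2 : |(hor M (fun j => P (ext h.1 j)) k a : ℝ)| ≤ K * ((M:ℝ) ^ k - 1) := by
        exact_mod_cast this
      rw [← hLr] at h2
      nlinarith [(Nat.cast_nonneg K : (0:ℝ) ≤ K)]
    have hDb : ∀ (h : H) a, |(hor M (fun j => D (ext h.1 j)) k a : ℝ)| ≤ K * L := by
      intro h a
      have := hor_abs_le hM (f := fun j => D (ext h.1 j)) (a := a) (K := K)
        (fun j => (hK _ _).2) k
      have h2 : |(hor M (fun j => D (ext h.1 j)) k a : ℝ)| ≤ K * ((M:ℝ) ^ k - 1) := by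
        exact_mod_cast this
      rw [← hLr] at h2
      nlinarith [(Nat.cast_nonneg K : (0:ℝ) ≤ K)]
    have hDb' : ∀ (h : H) a, |(hor M (fun j => D (ext h.1 j)) k a : ℝ)| ≤ A * L := by
      intro h a
      refine (hDb h a).trans (mul_le_mul_of_nonneg_right ?_ (by linarith))
      rw [hA]
      nlinarith [(Nat.cast_nonneg K : (0:ℝ) ≤ K)]
    have hmain := dim_sep (H := H) (d := d) (L := L) hL4
      (fun h a => (hor M (fun j => P (ext h.1 j)) k a : ℝ))
      (fun h a => (hor M (fun j => D (ext h.1 j)) k a : ℝ)) (A := A) (τ₀ := t) (η := η) hη0 hA0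
      (fun h a τ hτ => by
        have hτ2 := hTτ τ ⟨(hsub hτ).1.le, (hsub hτ).2.le⟩
        calc |(hor M (fun j => P (ext h.1 j)) k a : ℝ) +
              τ * (hor M (fun j => D (ext h.1 j)) k a : ℝ)|
            ≤ |(hor M (fun j => P (ext h.1 j)) k a : ℝ)| +
              |τ * (hor M (fun j => D (ext h.1 j)) k a : ℝ)| := abs_add_le _ _
          _ ≤ K * L + T * (K * L) := by
              rw [abs_mul]
              exact add_le_add (hPb h a) (mul_le_mul hτ2 (hDb h a) (abs_nonneg _) hT0)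
          _ = A * L := by rw [hA]; ring)
      hDb'
      (fun h h' hne τ hτ => by
        obtain ⟨a, ha⟩ := hHsep h.1 h.2 h'.1 h'.2 (fun h0 => hne (Subtype.ext h0))
        refine ⟨a, ?_⟩
        set p1 : ℝ := (hor M (fun j => P (ext h.1 j)) k a : ℝ)
        set p2 : ℝ := (hor M (fun j => P (ext h'.1 j)) k a : ℝ)
        set d1 : ℝ := (hor M (fun j => D (ext h.1 j)) k a : ℝ) with hd1
        set d2 : ℝ := (hor M (fun j => D (ext h'.1 j)) k a : ℝ) with hd2
        have h1 : (p1 + τ * d1) - (p2 + τ * d2) =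
            ((p1 + t * d1) - (p2 + t * d2)) - (-((τ - t) * (d1 - d2))) := by ring
        have h2 : |(τ - t) * (d1 - d2)| ≤ 1 := by
          rw [abs_mul]
          have h3 : |τ - t| ≤ η := by
            rw [abs_of_nonneg (by linarith [hτ.1])]
            linarith [hτ.2]
          have h4 : |d1 - d2| ≤ 2 * A * L + 1 := by
            have h5 := abs_sub d1 d2
            have h6 := hDb' h a
            have h7 := hDb' h' a
            linarith
          calc _ ≤ η * (2 * A * L + 1) := mul_le_mul h3 h4 (abs_nonneg _) hη0.le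
            _ ≤ 1 := hη2
        have h3 := abs_sub_abs_le_abs_sub ((p1 + t * d1) - (p2 + t * d2)) (-((τ - t) * (d1 - d2)))
        rw [abs_neg, ← h1] at h3
        linarith)
    have hsub2 : fam (L:ℝ) (fun (h : H) a => (hor M (fun j => P (ext h.1 j)) k a : ℝ))
        (fun (h : H) a => (hor M (fun j => D (ext h.1 j)) k a : ℝ)) (Icc t (t + η)) ⊆
        fam (M:ℝ) (fun v a => (P v a : ℝ)) (fun v a => (D v a : ℝ)) (Ioo x y) := by
      have h1 := fam_subset_aut (Q := Unit) (ι := κ) (κ := H) hM (δ := fun _ _ => ())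
        (α := fun _ => P) (dig := D) (s := ()) (ℓ := k) (by omega) (g := fun h => ext h.1)
        (fun v => rfl) (Icc t (t + η))
      rw [hLr]
      refine h1.trans ?_
      rintro z ⟨τ, hτ, Y, rfl⟩
      exact ⟨τ, hsub hτ, Y, rfl⟩
    refine le_trans (ENNReal.ofReal_le_ofReal ?_) (hmain.trans (dimH_mono hsub2))
    -- the numerical part
    have hlogL : Real.log L = k * Real.log M := by rw [hLr, Real.log_pow]
    have hlogL0 : 0 < Real.log L := by rw [hlogL]; positivity
    rw [Fintype.card_coe, le_div_iff₀ hlogL0, hlogL]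
    have h1 : (L:ℝ) / 4 ≤ ((L / 2 : ℕ) : ℝ) := by
      have h2 : L ≤ 2 * (L / 2) + 1 := by omega
      have h3 : (L:ℝ) ≤ 2 * ((L / 2 : ℕ) : ℝ) + 1 := by exact_mod_cast h2
      linarith
    have hHr : (Fintype.card κ : ℝ) ^ k / (ρ:ℝ) ^ d ≤ H.card := by
      rw [div_le_iff₀ (by positivity)]
      have : ((Fintype.card κ ^ k : ℕ) : ℝ) ≤ ((ρ ^ d * H.card : ℕ) : ℝ) := by exact_mod_cast hH
      push_cast at this
      linarith
    have h2 : (Fintype.card κ : ℝ) ^ k / (ρ:ℝ) ^ d * (L / 4) ≤ ((H.card * (L / 2) : ℕ) : ℝ) := by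
      push_cast
      exact mul_le_mul hHr (by exact_mod_cast h1) (by positivity) (by positivity)
    have h3 := Real.log_le_log (by positivity) h2
    refine le_trans (le_of_eq ?_) h3
    rw [Real.log_mul (by positivity) (by positivity), Real.log_div (by positivity) (by positivity),
      Real.log_div (by positivity) (by norm_num), Real.log_pow, Real.log_pow, hlogL]
    field_simp
    ring
  -- the limit
  have hlim : Tendsto (fun k : ℕ => ENNReal.ofReal (1 + Real.log (Fintype.card κ) / Real.log M -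
      (d * Real.log ρ + Real.log 4) / Real.log M * (1 / k))) atTop
      (𝓝 (ENNReal.ofReal (1 + Real.log (Fintype.card κ) / Real.log M -
        (d * Real.log ρ + Real.log 4) / Real.log M * 0))) := by
    apply ENNReal.tendsto_ofReal
    apply Tendsto.const_sub
    apply Tendsto.const_mul
    exact tendsto_one_div_atTop_nhds_zero_nat
  rw [mul_zero, sub_zero] at hlim
  exact le_of_tendsto hlim (eventually_atTop.2 ⟨2, fun k hk => key k hk⟩)

end Pool.Agent.N269.AK
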