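import Pool.Agent.N269.AK.Prod
import Pool.Agent.N269.AK.Geo

set_option autoImplicit false

/-!
# Horner sums, automata, residues of the points of an automatic family of lines
-/

open Finset

namespace Pool.Agent.N269.AK

/-- Horner sums: `hor M f n = ∑_{j<n} M^(n-1-j) f j`. -/
def hor {d : ℕ} (M : ℤ) (f : ℕ → Fin d → ℤ) : ℕ → Fin d → ℤ
  | 0 => 0
  | n + 1 => fun a => M * hor M f n a + f n a

theorem hor_succ {d : ℕ} (M : ℤ) (f : ℕ → Fin d → ℤ) (n : ℕ) (a : Fin d) :
    hor M f (n + 1) a = M * hor M f n a + f n a := rfl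

theorem hor_congr {d : ℕ} (M : ℤ) {f f' : ℕ → Fin d → ℤ} {n : ℕ} (h : ∀ j < n, f j = f' j) :
    hor M f n = hor M f' n := by
  induction n with
  | zero => rfl
  | succ n ih =>
    funext a
    rw [hor_succ, hor_succ, ih (fun j hj => h j (by omega)), h n (by omega)]

theorem hor_add {d : ℕ} (M : ℤ) (f : ℕ → Fin d → ℤ) (m n : ℕ) (a : Fin d) :
    hor M f (m + n) a = M ^ n * hor M f m a + hor M (fun j => f (m + j)) n a := by
  induction n with
  | zero => simp [hor]
  | succ n ih =>
    rw [← add_assoc, hor_succ, ih, hor_succ]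
    ring

theorem hor_lin {d : ℕ} (M c e : ℤ) (f g : ℕ → Fin d → ℤ) (n : ℕ) (a : Fin d) :
    hor M (fun j a => c * f j a + e * g j a) n a = c * hor M f n a + e * hor M g n a := by
  induction n with
  | zero => simp [hor]
  | succ n ih => rw [hor_succ, hor_succ, hor_succ, ih]; ring

theorem hor_abs_le {d : ℕ} {M : ℕ} (hM : 2 ≤ M) {f : ℕ → Fin d → ℤ} {a : Fin d} {K : ℕ}
    (hf : ∀ j, |f j a| ≤ K) (n : ℕ) : |hor M f n a| ≤ K * (M ^ n - 1) := by
  induction n with
  | zero => simp [hor]
  | succ n ih =>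
    rw [hor_succ]
    have hM' : (2:ℤ) ≤ M := by exact_mod_cast hM
    have hp : (1:ℤ) ≤ (M:ℤ) ^ n := one_le_pow₀ (by linarith)
    have hK : (0:ℤ) ≤ K := by positivity
    calc |(M:ℤ) * hor M f n a + f n a| ≤ |(M:ℤ) * hor M f n a| + |f n a| := abs_add_le _ _
      _ ≤ M * (K * (M ^ n - 1)) + K := by
          rw [abs_mul, abs_of_nonneg (by linarith : (0:ℤ) ≤ M)]
          exact add_le_add (mul_le_mul_of_nonneg_left ih (by linarith)) (hf n)
      _ ≤ K * (M ^ (n + 1) - 1) := by rw [pow_succ]; nlinarith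

/-- Digits which are distinct modulo `M` are determined by the Horner sum modulo `M ^ n`. -/
theorem hor_inj {d : ℕ} {ι : Type*} {M : ℤ} (hM : M ≠ 0) {dig : ι → Fin d → ℤ}
    (hdig : ∀ i i', (∀ a, M ∣ dig i a - dig i' a) → i = i') (n : ℕ) (Y Y' : ℕ → ι)
    (h : ∀ a, M ^ n ∣ hor M (fun j => dig (Y j)) n a - hor M (fun j => dig (Y' j)) n a) :
    ∀ j < n, Y j = Y' j := by
  induction n with
  | zero => intro j hj; omega
  | succ n ih =>
    have h1 : Y n = Y' n := by
      apply hdig
      intro a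
      have h2 := (Dvd.intro_left (M ^ n) rfl : M ∣ M ^ n * M).trans (by simpa [pow_succ] using h a)
      rw [hor_succ, hor_succ] at h2
      have h3 : M * hor M (fun j => dig (Y j)) n a + dig (Y n) a -
          (M * hor M (fun j => dig (Y' j)) n a + dig (Y' n) a) =
          M * (hor M (fun j => dig (Y j)) n a - hor M (fun j => dig (Y' j)) n a) +
            (dig (Y n) a - dig (Y' n) a) := by ring
      rw [h3] at h2
      exact (dvd_add_right (dvd_mul_right _ _)).1 h2
    have h2 : ∀ a, M ^ n ∣ hor M (fun j => dig (Y j)) n a - hor M (fun j => dig (Y' j)) n a := by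
      intro a
      have h3 := h a
      rw [hor_succ, hor_succ, h1] at h3
      have h4 : M * hor M (fun j => dig (Y j)) n a + dig (Y' n) a -
          (M * hor M (fun j => dig (Y' j)) n a + dig (Y' n) a) =
          M * (hor M (fun j => dig (Y j)) n a - hor M (fun j => dig (Y' j)) n a) := by ring
      rw [h4, pow_succ'] at h3
      exact (mul_dvd_mul_iff_left hM).1 h3
    intro j hj
    rcases Nat.lt_succ_iff_lt_or_eq.1 hj with h3 | rfl
    · exact ih h2 j h3
    · exact h1

/-- The states of the automaton along an input sequence. -/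
def st {Q ι : Type*} (δ : Q → ι → Q) (s : Q) (Y : ℕ → ι) : ℕ → Q
  | 0 => s
  | n + 1 => δ (st δ s Y n) (Y n)

theorem st_congr {Q ι : Type*} (δ : Q → ι → Q) (s : Q) {Y Y' : ℕ → ι} {n : ℕ}
    (h : ∀ j < n, Y j = Y' j) : st δ s Y n = st δ s Y' n := by
  induction n with
  | zero => rfl
  | succ n ih =>
    show δ (st δ s Y n) (Y n) = δ (st δ s Y' n) (Y' n)
    rw [ih (fun j hj => h j (by omega)), h n (by omega)]

theorem st_add {Q ι : Type*} (δ : Q → ι → Q) (s : Q) (Y : ℕ → ι) (m n : ℕ) :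
    st δ s Y (m + n) = st δ (st δ s Y m) (fun j => Y (m + j)) n := by
  induction n with
  | zero => rfl
  | succ n ih =>
    show δ (st δ s Y (m + n)) (Y (m + n)) = δ _ _
    rw [ih]

/-- The sequence of outputs. -/
def outs {Q ι : Type*} {d : ℕ} (δ : Q → ι → Q) (α : Q → ι → Fin d → ℤ) (s : Q) (Y : ℕ → ι) (j : ℕ) :
    Fin d → ℤ := α (st δ s Y j) (Y j)

theorem outs_congr {Q ι : Type*} {d : ℕ} (δ : Q → ι → Q) (α : Q → ι → Fin d → ℤ) (s : Q)
    {Y Y' : ℕ → ι} {n : ℕ} (h : ∀ j < n, Y j = Y' j) : ∀ j < n, outs δ α s Y j = outs δ α s Y' j := by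
  intro j hj
  unfold outs
  rw [st_congr δ s (fun i hi => h i (by omega)), h j hj]

theorem outs_add {Q ι : Type*} {d : ℕ} (δ : Q → ι → Q) (α : Q → ι → Fin d → ℤ) (s : Q)
    (Y : ℕ → ι) (m : ℕ) :
    (fun j => outs δ α s Y (m + j)) = outs δ α (st δ s Y m) (fun j => Y (m + j)) := by
  funext j
  unfold outs
  rw [st_add]

/-- Extension of a finite word. -/
noncomputable def ext {ι : Type*} [Nonempty ι] {m : ℕ} (w : Fin m → ι) (n : ℕ) : ι :=
  if h : n < m then w ⟨n, h⟩ else Classical.arbitrary ι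

theorem ext_apply {ι : Type*} [Nonempty ι] {m : ℕ} (w : Fin m → ι) (i : Fin m) :
    ext w i = w i := by
  unfold ext
  rw [dif_pos i.2]

section residues
variable {ι Q : Type} [Fintype ι] [Nonempty ι] {d M : ℕ} {dig : ι → Fin d → ℤ}

/-- **Many residues.**  For some `t` the points at the height `t` of the lines given by the words of
length `m` have at least `|ι|^m / C` residues modulo `M^m`. -/
theorem residues (hM : 2 ≤ M) (hdig : ∀ i i', (∀ a, (M:ℤ) ∣ dig i a - dig i' a) → i = i')
    (δ : Q → ι → Q) (α : Q → ι → Fin d → ℤ) (s : Q) (m C : ℕ) [NeZero (M ^ m)]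
    (hC : Kk (ZMod (M ^ m)) d C) :
    ∃ (κ : Type) (_ : Fintype κ) (g : κ → ℕ → ι) (t : ℤ),
      (∀ v v', (∀ a, (M:ℤ) ^ m ∣
        (hor M (outs δ α s (g v)) m a + t * hor M (fun j => dig (g v j)) m a) -
        (hor M (outs δ α s (g v')) m a + t * hor M (fun j => dig (g v' j)) m a)) → v = v') ∧
      Fintype.card ι ^ m ≤ C * Fintype.card κ := by
  classical
  have hM0 : (M:ℤ) ≠ 0 := by positivity
  let P : (Fin m → ι) → Fin d → ZMod (M ^ m) := fun w a => (hor M (outs δ α s (ext w)) m a : ℤ)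
  let D : (Fin m → ι) → Fin d → ZMod (M ^ m) := fun w a => (hor M (fun j => dig (ext w j)) m a : ℤ)
  have hcast : ∀ u v : ℤ, ((u : ZMod (M ^ m)) = (v : ZMod (M ^ m))) ↔ (M:ℤ) ^ m ∣ u - v := by
    intro u v
    rw [← sub_eq_zero, ← Int.cast_sub, ZMod.intCast_zmod_eq_zero_iff_dvd]
    push_cast
    rfl
  have hDinj : Function.Injective D := by
    intro w w' h
    have h1 := hor_inj hM0 hdig m (ext w) (ext w') (fun a => (hcast _ _).1 (congrFun h a))
    funext i
    rw [← ext_apply w i, ← ext_apply w' i]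
    exact h1 i i.2
  have : Nonempty (Fin m → ι) := ⟨fun _ => Classical.arbitrary ι⟩
  let x : (Fin d → ZMod (M ^ m)) → (Fin d → ZMod (M ^ m)) := fun b => P (Function.invFun D b)
  have hx : ∀ w, x (D w) = P w := fun w => by
    simp only [x]; rw [Function.leftInverse_invFun hDinj w]
  have h1 := hC (univ.image D) x
  rw [card_image_of_injective _ hDinj, card_univ, Fintype.card_fun, Fintype.card_fin,
    ZMod.card] at h1
  -- slices
  let T : ZMod (M ^ m) → Finset (Fin d → ZMod (M ^ m)) := fun t => univ.image fun w => P w + t • D w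
  have h2 : (lineSet (univ.image D) x).card = ∑ t, (T t).card := by
    rw [card_eq_sum_card_fiberwise (f := Prod.fst) (t := univ) (fun _ _ => mem_univ _)]
    refine sum_congr rfl fun t _ => ?_
    refine (card_bij (fun y _ => (t, y)) ?_ ?_ ?_).symm
    · intro y hy
      rw [mem_image] at hy
      obtain ⟨w, -, rfl⟩ := hy
      rw [mem_filter]
      refine ⟨?_, rfl⟩
      rw [← hx w]
      exact mem_lineSet (mem_image_of_mem _ (mem_univ _)) t
    · intro y _ y' _ h
      exact (Prod.mk.inj h).2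
    · rintro ⟨t', y⟩ hy
      rw [mem_filter] at hy
      obtain ⟨hy1, hy2⟩ := hy
      simp only at hy2
      subst hy2
      rw [lineSet, mem_image] at hy1
      obtain ⟨⟨b, t''⟩, hb, h⟩ := hy1
      rw [mem_product, mem_image] at hb
      obtain ⟨⟨w, -, rfl⟩, -⟩ := hb
      simp only [Prod.mk.injEq] at h
      obtain ⟨rfl, rfl⟩ := h
      refine ⟨x (D w) + t'' • D w, ?_, rfl⟩
      rw [mem_image]
      exact ⟨w, mem_univ _, by rw [hx]⟩
  rw [h2] at h1
  obtain ⟨t, ht⟩ : ∃ t, Fintype.card ι ^ m ≤ C * (T t).card := by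
    by_contra hcon
    push Not at hcon
    have h3 : ∑ t : ZMod (M ^ m), C * (T t).card < ∑ _t : ZMod (M ^ m), Fintype.card ι ^ m :=
      sum_lt_sum_of_nonempty univ_nonempty fun t _ => hcon t
    rw [← mul_sum, sum_const, card_univ, ZMod.card, smul_eq_mul] at h3
    omega
  have hch : ∀ v : T t, ∃ w : Fin m → ι, P w + t • D w = v.1 := by
    intro v
    have := v.2
    rw [mem_image] at this
    obtain ⟨w, -, hw⟩ := this
    exact ⟨w, hw⟩
  choose w hw using hch
  refine ⟨T t, inferInstance, fun v => ext (w v), (t.val : ℤ), ?_, ?_⟩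
  · intro v v' h
    apply Subtype.ext
    rw [← hw v, ← hw v']
    funext a
    have h3 := (hcast _ _).2 (h a)
    simp only [Int.cast_add, Int.cast_mul, Int.cast_natCast, ZMod.natCast_zmod_val] at h3
    exact h3
  · rw [Fintype.card_coe]
    exact ht

end residues

end Pool.Agent.N269.AK
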