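import Pool.Agent.N269.AK.PrimePow
import Pool.Agent.N269.AK.Cyc

set_option autoImplicit false
set_option linter.unusedSectionVars false

/-!
# Unions of lines in `(ℤ/p^k)^(d+1)`: the weighted inequality
-/

open Polynomial Finset

namespace Pool.Agent.N269.AK

/-- The union of the lines `{(t, x b + t b) : t ∈ R}`, `b ∈ B`. -/
def lineSet {R : Type*} [CommRing R] [Fintype R] [DecidableEq R] {d : ℕ}
    (B : Finset (Fin d → R)) (x : (Fin d → R) → (Fin d → R)) : Finset (R × (Fin d → R)) :=
  (B ×ˢ univ).image (fun z => (z.2, x z.1 + z.2 • z.1))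

theorem mem_lineSet {R : Type*} [CommRing R] [Fintype R] [DecidableEq R] {d : ℕ}
    {B : Finset (Fin d → R)} {x : (Fin d → R) → (Fin d → R)} {b : Fin d → R} (hb : b ∈ B) (t : R) :
    (t, x b + t • b) ∈ lineSet B x :=
  mem_image.2 ⟨(b, t), mem_product.2 ⟨hb, mem_univ _⟩, rfl⟩

section
variable {O : Type} [CommRing O] [IsDomain O] {ζ : O} {q : ℕ} [NeZero q]

theorem zp_nat (h : IsPrimitiveRoot ζ q) (n : ℕ) : ζ ^ (n : ZMod q).val = ζ ^ n := by
  rw [ZMod.val_natCast]
  conv_rhs => rw [← Nat.mod_add_div n q]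
  rw [pow_add, pow_mul, h.pow_eq_one, one_pow, mul_one]

theorem zp_add (h : IsPrimitiveRoot ζ q) (a b : ZMod q) :
    ζ ^ (a + b).val = ζ ^ a.val * ζ ^ b.val := by
  rw [← pow_add, ← zp_nat h (a.val + b.val)]
  congr 2
  push_cast
  simp

theorem zp_mul (h : IsPrimitiveRoot ζ q) (a b : ZMod q) :
    ζ ^ (a * b).val = (ζ ^ a.val) ^ b.val := by
  rw [← pow_mul, ← zp_nat h (a.val * b.val)]
  congr 2
  push_cast
  simp

theorem dvd_of_roots (h : IsPrimitiveRoot ζ q) (f : O[X])
    (hf : ∀ t : ZMod q, f.eval (ζ ^ t.val) = 0) : (X ^ q - 1 : O[X]) ∣ f := by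
  have hq : 0 < q := Nat.pos_of_ne_zero (NeZero.ne q)
  by_cases hf0 : f = 0
  · rw [hf0]; exact dvd_zero _
  rw [X_pow_sub_one_eq_prod hq h]
  have h1 : (∏ x ∈ nthRootsFinset q (1 : O), (X - C x)) =
      ((nthRootsFinset q (1 : O)).val.map fun a => X - C a).prod := rfl
  rw [h1, Multiset.prod_X_sub_C_dvd_iff_le_roots hf0, Multiset.le_iff_subset (Finset.nodup _)]
  intro a ha
  rw [Finset.mem_val, mem_nthRootsFinset hq] at ha
  obtain ⟨i, -, rfl⟩ := h.eq_pow_of_pow_eq_one ha
  rw [mem_roots hf0, IsRoot.def, ← zp_nat h i]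
  exact hf _

end

/-- The weight of the direction `b`. -/
def wt {d : ℕ} (q k : ℕ) (b : Fin d → ZMod q) : ℕ := q - k * ∑ a, (b a).val

/-- **Unions of lines over `ℤ/p^k`.**  The union of the lines with directions `(1, b)`, `b ∈ B`, one
for each `b`, has at least `∑ (p^k - k ∑ b_a)` elements. -/
theorem weighted {p k d : ℕ} [hp : Fact p.Prime] (hk : 1 ≤ k)
    (B : Finset (Fin d → ZMod (p ^ k))) (x : (Fin d → ZMod (p ^ k)) → (Fin d → ZMod (p ^ k))) :
    ∑ b ∈ B, wt (p ^ k) k b ≤ (lineSet B x).card := by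
  classical
  have hq : 0 < p ^ k := pow_pos hp.out.pos k
  obtain ⟨O, _, _, ζ, φ, hζ, hφ, hker, hfin⟩ := exists_ring p k hk
  set S := lineSet B x with hS
  set I : Finset ((Fin d → ℕ) × ℕ) :=
    (B.sigma fun b => range (wt (p ^ k) k b)).image (fun z => (fun a => (z.1 a).val, z.2)) with hI
  have hIcard : I.card = ∑ b ∈ B, wt (p ^ k) k b := by
    rw [hI, card_image_of_injective, card_sigma]
    · simp
    · rintro ⟨b, e⟩ ⟨b', e'⟩ h
      simp only [Prod.mk.injEq] at h
      obtain ⟨h1, h2⟩ := h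
      have h3 : b = b' := by
        funext a
        exact ZMod.val_injective _ (congrFun h1 a)
      subst h3 h2
      rfl
  have hImem : ∀ y ∈ I, ∃ b ∈ B, y.1 = (fun a => (b a).val) ∧ y.2 + k * ∑ a, (b a).val < p ^ k := by
    intro y hy
    rw [hI, mem_image] at hy
    obtain ⟨⟨b, e⟩, hz, rfl⟩ := hy
    rw [mem_sigma, mem_range] at hz
    refine ⟨b, hz.1, rfl, ?_⟩
    have := hz.2
    unfold wt at this
    simp only at this ⊢
    omega
  have hI2 : ∀ y ∈ I, y.2 + k * ∑ a, y.1 a < p ^ k := by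
    intro y hy
    obtain ⟨b, _, h1, h2⟩ := hImem y hy
    rw [h1]; exact h2
  rw [← hIcard]
  let A : Matrix S I O := Matrix.of fun s i =>
    bas i.1.1 i.1.2 (ζ ^ s.1.1.val) (fun a => ζ ^ (s.1.2 a).val)
  have key : ∀ c : I → O, A.mulVec c = 0 → ∀ i, (ζ - 1) ∣ c i := by
    intro c hc i
    apply hker
    let c' : (Fin d → ℕ) × ℕ → O := fun y => if h : y ∈ I then c ⟨y, h⟩ else 0
    have hc' : ∀ i : I, c' i.1 = c i := fun i => by simp [c']
    have h1 := triangular I hI2 hk (fun y => φ (c' y)) ?_ i.1 i.2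
    · simpa [hc'] using h1
    · intro y hy
      obtain ⟨b, hb, hyb, -⟩ := hImem y hy
      set f : O[X] := ∑ z ∈ I, C (c' z) *
        bas z.1 z.2 X (fun a => C (ζ ^ (x b a).val) * X ^ (b a).val) with hf
      have hroots : ∀ t : ZMod (p ^ k), f.eval (ζ ^ t.val) = 0 := by
        intro t
        have h2 := congrFun hc ⟨_, mem_lineSet (x := x) hb t⟩
        rw [Matrix.mulVec, dotProduct, Pi.zero_apply] at h2
        rw [← h2, hf, eval_finsetSum, ← sum_coe_sort I]
        refine sum_congr rfl fun z _ => ?_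
        rw [eval_mul, eval_C, hc', mul_comm]
        congr 1
        rw [← coe_evalRingHom, map_bas]
        simp only [A, Matrix.of_apply, coe_evalRingHom, eval_X, eval_mul, eval_C, eval_pow,
          Pi.add_apply, Pi.smul_apply, smul_eq_mul]
        congr 1
        funext a
        rw [zp_add hζ, zp_mul hζ]
      have h3 := dvd_of_roots hζ f hroots
      have h4 := map_dvd (mapRingHom φ) h3
      have h5 : mapRingHom φ (X ^ (p ^ k) - 1) = (X - 1) ^ (p ^ k) := by
        rw [sub_pow_char_pow]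
        simp
      rw [h5] at h4
      have h6 : mapRingHom φ f = ∑ z ∈ I, C (φ (c' z)) *
          bas z.1 z.2 X (fun a => X ^ (y.1 a)) := by
        rw [hf, map_sum]
        refine sum_congr rfl fun z _ => ?_
        rw [map_mul, map_bas]
        simp only [coe_mapRingHom, map_C, map_X, Polynomial.map_mul, Polynomial.map_pow, map_pow,
          hφ, one_pow, map_one, one_mul]
        rw [hyb]
      rw [h6] at h4
      exact h4
  have key2 : ∀ n : ℕ, ∀ c : I → O, A.mulVec c = 0 → ∀ i, (ζ - 1) ^ n ∣ c i := by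
    intro n
    induction n with
    | zero => intro c _ i; simp
    | succ n ih =>
      intro c hc
      have h1 := key c hc
      choose c' hc' using h1
      have h2 : c = (ζ - 1) • c' := by funext i; simp [hc' i]
      have hne : ζ - 1 ≠ 0 := by
        intro h0
        obtain ⟨n, hn⟩ := hfin 1 one_ne_zero
        rw [sub_eq_zero] at h0
        have h3 : IsPrimitiveRoot ζ 1 := by rw [h0]; exact IsPrimitiveRoot.one
        have h4 := h3.unique hζ
        have h5 : 1 < p ^ k := Nat.one_lt_pow (by omega) hp.out.one_lt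
        omega
      have h3 : A.mulVec c' = 0 := by
        rw [h2, Matrix.mulVec_smul] at hc
        exact (smul_eq_zero.1 hc).resolve_left hne
      intro i
      rw [hc' i, pow_succ']
      exact mul_dvd_mul_left _ (ih c' h3 i)
  have hinj : Function.Injective A.mulVecLin := by
    rw [← LinearMap.ker_eq_bot, LinearMap.ker_eq_bot']
    intro c hc
    rw [Matrix.mulVecLin_apply] at hc
    funext i
    by_contra hne
    obtain ⟨n, hn⟩ := hfin (c i) hne
    exact hn (key2 n c hc i)
  have h1 := card_le_of_injective O A.mulVecLin hinj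
  simpa using h1

end Pool.Agent.N269.AK
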